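import Mathlib

/-!
# Equivariant bijections from fixed points: statement
-/

noncomputable section

namespace Pool.Agent.Q18.EQ

/-- JOB BURN (Burnside's theorem on marks, relative to a set `C` of colours): two finite `P`-sets
over the `P`-set `C` with the same numbers of fixed points of every subgroup in every fibre are
isomorphic over `C`. -/
def S_BURN : Prop := ∀ (P : Type) [Group P] [Finite P] (A B C : Type) [Finite A] [Finite B]
  [MulAction P A] [MulAction P B] [MulAction P C] (f : A → C) (g : B → C),
  (∀ (x : P) (a : A), f (x • a) = x • f a) → (∀ (x : P) (b : B), g (x • b) = x • g b) →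
  (∀ (H : Subgroup P) (c : C), Nat.card {a : A // f a = c ∧ ∀ h ∈ H, h • a = a} =
    Nat.card {b : B // g b = c ∧ ∀ h ∈ H, h • b = b}) →
  ∃ e : A ≃ B, (∀ (x : P) (a : A), e (x • a) = x • e a) ∧ ∀ a, g (e a) = f a

end Pool.Agent.Q18.EQ
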