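import Pool.Agent.Q18.EQ.Loc
import Pool.Agent.Y286.NV.Fin

/-!
# The number of the invariant classes of weights
-/

set_option autoImplicit false

open scoped Classical

noncomputable section

set_option linter.unusedSectionVars false

namespace Pool.Agent.Q18.EQ

open Pool.Agent.Y63.NV
open Pool.Agent.Y487.NV
open Pool.Agent.Y286.NV (isWt_comp centralValue_comp irr_class)
open Pool.Agent.Y63.AWC (IsIrreducibleCharacter)

/-- A weight of `G₀`: a `p`-subgroup `Q` and the inflation to `N(Q)` (extended by zero) of a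
character of `p`-defect zero of `N(Q)/Q`. -/
structure IsWeight (p : ℕ) {G₀ : Type} [Group G₀] (w : Subgroup G₀ × (G₀ → ℂ)) : Prop where
  isp : IsPGroup p w.1
  supp : ∀ x, x ∉ Subgroup.normalizer (w.1 : Set G₀) → w.2 x = 0
  wt : IsWt p (w.1.subgroupOf (Subgroup.normalizer (w.1 : Set G₀))) (fun x => w.2 x)

/-- the image under an automorphism -/
def mv {G₀ : Type} [Group G₀] (a : MulAut G₀) (w : Subgroup G₀ × (G₀ → ℂ)) :
    Subgroup G₀ × (G₀ → ℂ) := (w.1.map a.toMonoidHom, fun x => w.2 (a⁻¹ x))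

/-- the value of the central character of a weight -/
def lab {F : Type} [Field F] (red : integralClosure ℤ ℂ →+* F) {G₀ : Type} [Group G₀]
    (w : Subgroup G₀ × (G₀ → ℂ)) (f : G₀ → F) : F :=
  centralValue red (fun x : Subgroup.normalizer (w.1 : Set G₀) => w.2 x) (fun x => f x)

section

variable {F G₀ : Type} [Field F] [Group G₀] {p : ℕ}

theorem mv_one (w : Subgroup G₀ × (G₀ → ℂ)) : mv 1 w = w := by
  unfold mv
  refine Prod.ext ?_ ?_
  · ext x
    simp [Subgroup.mem_map]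
  · rfl

theorem mv_mul (a b : MulAut G₀) (w : Subgroup G₀ × (G₀ → ℂ)) : mv (a * b) w = mv a (mv b w) := by
  unfold mv
  refine Prod.ext ?_ ?_
  · ext x
    simp [Subgroup.mem_map]
  · funext x
    rw [mul_inv_rev]
    rfl

theorem mem_map_aut (a : MulAut G₀) (Q : Subgroup G₀) (x : G₀) :
    a x ∈ Q.map a.toMonoidHom ↔ x ∈ Q := by
  constructor
  · rintro ⟨y, hy, hyx⟩
    have : y = x := a.injective hyx
    rwa [← this]
  · intro hx
    exact ⟨x, hx, rfl⟩

theorem mem_norm_map (a : MulAut G₀) (Q : Subgroup G₀) (x : G₀) :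
    a x ∈ Subgroup.normalizer ((Q.map a.toMonoidHom : Subgroup G₀) : Set G₀) ↔
      x ∈ Subgroup.normalizer (Q : Set G₀) := by
  rw [Subgroup.mem_normalizer_iff, Subgroup.mem_normalizer_iff]
  constructor
  · intro h y
    have h1 := h (a y)
    rw [← map_mul, ← map_inv, ← map_mul, mem_map_aut, mem_map_aut] at h1
    exact h1
  · intro h y
    obtain ⟨y, rfl⟩ := a.surjective y
    have h1 := h y
    rw [← map_mul, ← map_inv, ← map_mul, mem_map_aut, mem_map_aut]
    exact h1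

/-- automorphisms and normalisers -/
def nEa (a : MulAut G₀) (Q : Subgroup G₀) : Subgroup.normalizer (Q : Set G₀) ≃*
    Subgroup.normalizer ((Q.map a.toMonoidHom : Subgroup G₀) : Set G₀) where
  toFun x := ⟨a x, (mem_norm_map a Q x).2 x.2⟩
  invFun y := ⟨a⁻¹ y, (mem_norm_map a Q _).1 (by
    have : a (a⁻¹ (y : G₀)) = y := a.apply_symm_apply _
    rw [this]
    exact y.2)⟩
  left_inv x := Subtype.ext (a.symm_apply_apply _)
  right_inv y := Subtype.ext (a.apply_symm_apply _)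
  map_mul' x y := Subtype.ext (map_mul a _ _)

theorem nEa_coe (a : MulAut G₀) (Q : Subgroup G₀) (x : Subgroup.normalizer (Q : Set G₀)) :
    ((nEa a Q x : Subgroup.normalizer ((Q.map a.toMonoidHom : Subgroup G₀) : Set G₀)) : G₀) =
      a x := rfl

theorem nEa_symm_coe (a : MulAut G₀) (Q : Subgroup G₀)
    (x : Subgroup.normalizer ((Q.map a.toMonoidHom : Subgroup G₀) : Set G₀)) :
    (((nEa a Q).symm x : Subgroup.normalizer (Q : Set G₀)) : G₀) = a⁻¹ x := rfl

theorem IsWeight.mv {w : Subgroup G₀ × (G₀ → ℂ)} (h : IsWeight p w) (a : MulAut G₀) :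
    IsWeight p (mv a w) where
  isp := h.isp.map _
  supp x hx := by
    refine h.supp _ fun h1 => hx ?_
    rw [← mem_norm_map a] at h1
    have e : a (a⁻¹ x) = x := a.apply_symm_apply _
    rw [e] at h1
    exact h1
  wt := by
    have h1 := isWt_comp (p := p) (nEa a w.1).symm
      (Q := (w.1.map a.toMonoidHom).subgroupOf
        (Subgroup.normalizer ((w.1.map a.toMonoidHom : Subgroup G₀) : Set G₀)))
      (Q' := w.1.subgroupOf (Subgroup.normalizer (w.1 : Set G₀))) (fun x => by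
        have h2 := mem_map_aut a w.1 (a⁻¹ (x : G₀))
        have e : a (a⁻¹ (x : G₀)) = x := a.apply_symm_apply _
        rw [e] at h2
        rw [Subgroup.mem_subgroupOf, Subgroup.mem_subgroupOf, nEa_symm_coe]
        exact h2) h.wt
    exact h1

theorem lab_mv [Finite G₀] (red : integralClosure ℤ ℂ →+* F) {w : Subgroup G₀ × (G₀ → ℂ)}
    (h : IsWeight p w) (a : MulAut G₀) (f : G₀ → F) (hf : IsClassFun f) :
    lab red (mv a w) f = lab red w (fun x => f (a x)) := by
  refine (centralValue_comp red (nEa a w.1)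
    (fun x : Subgroup.normalizer ((mv a w).1 : Set G₀) => (mv a w).2 x)
    (irr_class (h.mv a).wt.irr) (fun x => f x) (fun g x => hf g x)).symm.trans ?_
  unfold lab
  congr 1
  funext x
  change w.2 (a⁻¹ (nEa a w.1 x : G₀)) = w.2 x
  rw [nEa_coe]
  exact congrArg w.2 (a.symm_apply_apply _)

/-- inner automorphisms by elements of the normaliser fix the weight -/
theorem mv_conj_norm {w : Subgroup G₀ × (G₀ → ℂ)} [Finite G₀] (h : IsWeight p w) (g : G₀) :
    mv (MulAut.conj g) w = w ↔ g ∈ Subgroup.normalizer (w.1 : Set G₀) := by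
  constructor
  · intro h1
    have h2 : w.1.map (MulAut.conj g).toMonoidHom = w.1 := congrArg Prod.fst h1
    rw [Subgroup.mem_normalizer_iff]
    intro x
    rw [← mem_map_aut (MulAut.conj g) w.1 x, h2, MulAut.conj_apply]
  · intro hg
    have h2 : w.1.map (MulAut.conj g).toMonoidHom = w.1 := by
      ext x
      have h3 := mem_map_aut (MulAut.conj g) w.1 (g⁻¹ * x * g)
      have e : (MulAut.conj g) (g⁻¹ * x * g) = x := by
        rw [MulAut.conj_apply]; group
      rw [e] at h3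
      rw [h3]
      have h4 := (Subgroup.mem_normalizer_iff.1 hg) (g⁻¹ * x * g)
      have e2 : g * (g⁻¹ * x * g) * g⁻¹ = x := by group
      rw [e2] at h4
      exact h4
    refine Prod.ext h2 ?_
    funext x
    change w.2 ((MulAut.conj g)⁻¹ x) = w.2 x
    rw [MulAut.conj_inv_apply]
    by_cases hx : x ∈ Subgroup.normalizer (w.1 : Set G₀)
    · have h3 := irr_class h.wt.irr (⟨g⁻¹ * x * g, (Subgroup.normalizer (w.1 : Set G₀)).mul_mem
        ((Subgroup.normalizer (w.1 : Set G₀)).mul_mem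
          ((Subgroup.normalizer (w.1 : Set G₀)).inv_mem hg) hx) hg⟩ :
            Subgroup.normalizer (w.1 : Set G₀)) ⟨x, hx⟩
        (isConj_iff.2 ⟨⟨g, hg⟩, Subtype.ext (by
          change g * (g⁻¹ * x * g) * g⁻¹ = x
          group)⟩)
      exact h3
    · rw [h.supp x hx, h.supp]
      intro h3
      apply hx
      have h4 := (Subgroup.normalizer (w.1 : Set G₀)).mul_mem
        ((Subgroup.normalizer (w.1 : Set G₀)).mul_mem hg h3)
        ((Subgroup.normalizer (w.1 : Set G₀)).inv_mem hg)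
      have e : g * (g⁻¹ * x * g) * g⁻¹ = x := by group
      rwa [e] at h4

end

/-- the weights -/
abbrev WT (p : ℕ) (G₀ : Type) [Group G₀] : Type := {w : Subgroup G₀ × (G₀ → ℂ) // IsWeight p w}

section

variable {G₀ : Type} [Group G₀] {p : ℕ}

/-- the action of the automorphism group -/
instance : MulAction (MulAut G₀) (WT p G₀) where
  smul a w := ⟨mv a w.1, w.2.mv a⟩
  one_smul w := Subtype.ext (mv_one w.1)
  mul_smul a b w := Subtype.ext (mv_mul a b w.1)

theorem smul_val (a : MulAut G₀) (w : WT p G₀) : (a • w).1 = mv a w.1 := rfl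

/-- the `G₀`-classes of weights -/
def wS (p : ℕ) (G₀ : Type) [Group G₀] : Setoid (WT p G₀) where
  r w w' := ∃ g : G₀, MulAut.conj g • w = w'
  iseqv :=
    { refl := fun w => ⟨1, by rw [map_one, one_smul]⟩
      symm := by
        rintro w w' ⟨g, rfl⟩
        exact ⟨g⁻¹, by rw [map_inv, inv_smul_smul]⟩
      trans := by
        rintro w w' w'' ⟨g, rfl⟩ ⟨h, rfl⟩
        exact ⟨h * g, by rw [map_mul, mul_smul]⟩ }

/-- the character part -/
def wE (p : ℕ) (G₀ : Type) [Group G₀] : WT p G₀ ≃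
    Σ Q : {Q : Subgroup G₀ // IsPGroup p Q},
      {ψ : Subgroup.normalizer (Q.1 : Set G₀) → ℂ //
        IsWt p (Q.1.subgroupOf (Subgroup.normalizer (Q.1 : Set G₀))) ψ} where
  toFun w := ⟨⟨w.1.1, w.2.isp⟩, ⟨fun x => w.1.2 x, w.2.wt⟩⟩
  invFun t := ⟨(t.1.1, fun x => if h : x ∈ Subgroup.normalizer (t.1.1 : Set G₀) then
      t.2.1 ⟨x, h⟩ else 0),
    { isp := t.1.2
      supp := fun x hx => dif_neg hx
      wt := by
        have h := t.2.2
        have e : t.2.1 = fun x : Subgroup.normalizer (t.1.1 : Set G₀) =>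
            if h : (x : G₀) ∈ Subgroup.normalizer (t.1.1 : Set G₀) then t.2.1 ⟨x, h⟩ else 0 := by
          funext x
          rw [dif_pos x.2]
        rw [e] at h
        exact h }⟩
  left_inv w := by
    apply Subtype.ext
    refine Prod.ext rfl ?_
    funext x
    change (if h : x ∈ Subgroup.normalizer (w.1.1 : Set G₀) then w.1.2 x else 0) = w.1.2 x
    by_cases hx : x ∈ Subgroup.normalizer (w.1.1 : Set G₀)
    · rw [dif_pos hx]
    · rw [dif_neg hx, w.2.supp x hx]
  right_inv t := by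
    obtain ⟨⟨Q, hQ⟩, ⟨ψ, hψ⟩⟩ := t
    refine Sigma.ext rfl ?_
    apply heq_of_eq
    apply Subtype.ext
    funext x
    change (if h : (x : G₀) ∈ Subgroup.normalizer (Q : Set G₀) then ψ ⟨x, h⟩ else 0) = ψ x
    rw [dif_pos x.2]

instance [Finite G₀] : Finite (WT p G₀) := by
  have h1 : ∀ Q : {Q : Subgroup G₀ // IsPGroup p Q},
      Finite {ψ : Subgroup.normalizer (Q.1 : Set G₀) → ℂ //
        IsWt p (Q.1.subgroupOf (Subgroup.normalizer (Q.1 : Set G₀))) ψ} := by
    intro Q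
    have : Fintype (Subgroup.normalizer (Q.1 : Set G₀)) := Fintype.ofFinite _
    have h2 := Pool.Agent.Helper884.IC.irr_finite (G := Subgroup.normalizer (Q.1 : Set G₀))
    exact (h2.subset fun ψ (hψ : IsWt p (Q.1.subgroupOf
      (Subgroup.normalizer (Q.1 : Set G₀))) ψ) => hψ.irr).to_subtype
  exact Finite.of_equiv _ (wE p G₀).symm

end

section inv

variable {F Γ G₀ : Type} [Field F] [Group Γ] [Finite Γ] [Group G₀] [Finite G₀] {p : ℕ}

/-- the class of `w` is fixed by `Γ` and its label is `c` -/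
def PW (red : integralClosure ℤ ℂ →+* F) (α : Γ →* MulAut G₀) (f : G₀ → F) (c : F)
    (w : WT p G₀) : Prop :=
  (∀ γ : Γ, ∃ g : G₀, α γ • w = MulAut.conj g • w) ∧ lab red w.1 f = c

/-- the number of the `Γ`-invariant classes of weights with label `c` -/
def nW (p : ℕ) (red : integralClosure ℤ ℂ →+* F) (α : Γ →* MulAut G₀) (f : G₀ → F) (c : F) : ℕ :=
  Nat.card {κ : Quotient (wS p G₀) // ∃ w, Quotient.mk _ w = κ ∧ PW red α f c w}

omit [Finite G₀] in
theorem conj_aut (a : MulAut G₀) (g : G₀) : a * MulAut.conj g = MulAut.conj (a g) * a := by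
  ext x
  rw [MulAut.mul_apply, MulAut.mul_apply, MulAut.conj_apply, MulAut.conj_apply, map_mul, map_mul,
    map_inv]

theorem PW_conj (red : integralClosure ℤ ℂ →+* F) (α : Γ →* MulAut G₀) {f : G₀ → F}
    (hf : IsClassFun f) (c : F) (w : WT p G₀) (h : G₀) (hw : PW red α f c w) :
    PW red α f c (MulAut.conj h • w) := by
  refine ⟨fun γ => ?_, ?_⟩
  · obtain ⟨g, hg⟩ := hw.1 γ
    refine ⟨α γ h * g * h⁻¹, ?_⟩
    rw [← mul_smul, conj_aut, mul_smul, hg, ← mul_smul, ← mul_smul, ← map_mul, ← map_mul,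
      inv_mul_cancel_right]
  · rw [smul_val, lab_mv red w.2 _ _ hf]
    refine Eq.trans ?_ hw.2
    congr 1
    funext x
    rw [MulAut.conj_apply, hf]

theorem mem_norm_iff {j₀ : G₀ →* Γ} (hj₀ : Function.Injective j₀) {G : Subgroup Γ}
    [hG : G.Normal] (hGdef : G = j₀.range) {α : Γ →* MulAut G₀}
    (hα : ∀ γ x, j₀ (α γ x) = γ * j₀ x * γ⁻¹) (Q : Subgroup G₀) (γ : Γ) :
    γ ∈ Subgroup.normalizer ((Q.map j₀ : Subgroup Γ) : Set Γ) ↔
      Q.map (α γ).toMonoidHom = Q := by
  have hm : ∀ x : G₀, j₀ x ∈ Q.map j₀ ↔ x ∈ Q := by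
    intro x
    constructor
    · rintro ⟨y, hy, hyx⟩
      rwa [← hj₀ hyx]
    · intro hx
      exact ⟨x, hx, rfl⟩
  rw [Subgroup.mem_normalizer_iff]
  constructor
  · intro h
    ext x
    obtain ⟨x, rfl⟩ := (α γ).surjective x
    rw [mem_map_aut, ← hm, ← hm, hα]
    exact h _
  · intro h x
    by_cases hx : x ∈ G
    · rw [hGdef] at hx
      obtain ⟨x, rfl⟩ := hx
      rw [← hα, hm, hm, ← mem_map_aut (α γ), h]
    · have h1 : ∀ y, y ∈ Q.map j₀ → y ∈ G := by
        rintro _ ⟨y, _, rfl⟩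
        rw [hGdef]
        exact ⟨y, rfl⟩
      constructor
      · intro h2
        exact absurd (h1 _ h2) hx
      · intro h2
        exfalso
        apply hx
        have h3 := hG.conj_mem _ (h1 _ h2) γ⁻¹
        have e : γ⁻¹ * (γ * x * γ⁻¹) * γ⁻¹⁻¹ = x := by group
        rwa [e] at h3

theorem alpha_j {j₀ : G₀ →* Γ} (hj₀ : Function.Injective j₀) {α : Γ →* MulAut G₀}
    (hα : ∀ γ x, j₀ (α γ x) = γ * j₀ x * γ⁻¹) (g : G₀) : α (j₀ g) = MulAut.conj g := by
  ext x
  apply hj₀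
  rw [hα, MulAut.conj_apply, map_mul, map_mul, map_inv]

theorem fix_iff {j₀ : G₀ →* Γ} (hj₀ : Function.Injective j₀) {G : Subgroup Γ}
    [hG : G.Normal] (hGdef : G = j₀.range) {α : Γ →* MulAut G₀}
    (hα : ∀ γ x, j₀ (α γ x) = γ * j₀ x * γ⁻¹) (w : WT p G₀) :
    (∀ γ : Γ, ∃ g : G₀, α γ • w = MulAut.conj g • w) ↔
      G ⊔ Subgroup.normalizer ((w.1.1.map j₀ : Subgroup Γ) : Set Γ) = ⊤ ∧
      ∀ γ ∈ Subgroup.normalizer ((w.1.1.map j₀ : Subgroup Γ) : Set Γ),
        ∀ x y : Subgroup.normalizer (w.1.1 : Set G₀), j₀ y = γ * j₀ x * γ⁻¹ →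
          w.1.2 y = w.1.2 x := by
  have hstab : ∀ g : G₀, MulAut.conj g • w = w ↔ g ∈ Subgroup.normalizer (w.1.1 : Set G₀) :=
    fun g => by rw [← mv_conj_norm w.2 g, Subtype.ext_iff, smul_val]
  constructor
  · intro h
    constructor
    · rw [eq_top_iff]
      intro γ _
      obtain ⟨g, hg⟩ := h γ
      have h1 : α ((j₀ g)⁻¹ * γ) • w = w := by
        rw [map_mul, map_inv, alpha_j hj₀ hα, mul_smul, hg, inv_smul_smul]
      have h2 : (j₀ g)⁻¹ * γ ∈ Subgroup.normalizer ((w.1.1.map j₀ : Subgroup Γ) : Set Γ) := by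
        rw [mem_norm_iff hj₀ hGdef hα]
        exact congrArg (fun t : WT p G₀ => t.1.1) h1
      have e : γ = j₀ g * ((j₀ g)⁻¹ * γ) := by group
      rw [e]
      exact Subgroup.mul_mem_sup (by rw [hGdef]; exact ⟨g, rfl⟩) h2
    · intro γ hγ x y hxy
      rw [mem_norm_iff hj₀ hGdef hα] at hγ
      obtain ⟨g, hg⟩ := h γ
      have h1 : g ∈ Subgroup.normalizer (w.1.1 : Set G₀) := by
        have h2 : w.1.1.map (α γ).toMonoidHom = w.1.1.map (MulAut.conj g).toMonoidHom :=
          congrArg (fun t : WT p G₀ => t.1.1) hg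
        rw [Subgroup.mem_normalizer_iff]
        intro a
        rw [← mem_map_aut (MulAut.conj g) w.1.1 a, ← h2, hγ, MulAut.conj_apply]
      rw [(hstab g).2 h1] at hg
      have h3 : y.1 = α γ x.1 := hj₀ (by rw [hα, hxy])
      have h4 : w.1.2 ((α γ)⁻¹ y.1) = w.1.2 y.1 :=
        congrFun (congrArg (fun t : WT p G₀ => t.1.2) hg) y.1
      rw [← h4, h3]
      exact congrArg w.1.2 ((α γ).symm_apply_apply _)
  · rintro ⟨h1, h2⟩ γ
    have hγ : γ ∈ ((G ⊔ Subgroup.normalizer ((w.1.1.map j₀ : Subgroup Γ) : Set Γ) :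
        Subgroup Γ) : Set Γ) := by rw [h1]; exact Subgroup.mem_top _
    rw [Subgroup.normal_mul, Set.mem_mul] at hγ
    obtain ⟨g, hg, n, hn, rfl⟩ := hγ
    have hg' : g ∈ j₀.range := hGdef ▸ hg
    obtain ⟨g, rfl⟩ := hg'
    refine ⟨g, ?_⟩
    rw [map_mul, mul_smul, alpha_j hj₀ hα]
    congr 1
    have h3 := (mem_norm_iff hj₀ hGdef hα w.1.1 n).1 hn
    apply Subtype.ext
    rw [smul_val]
    refine Prod.ext h3 ?_
    funext y
    change w.1.2 ((α n)⁻¹ y) = w.1.2 y
    have h5 : ∀ x : G₀, α n x ∈ Subgroup.normalizer (w.1.1 : Set G₀) ↔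
        x ∈ Subgroup.normalizer (w.1.1 : Set G₀) := by
      intro x
      have h6 := mem_norm_map (α n) w.1.1 x
      rw [h3] at h6
      exact h6
    obtain ⟨x, rfl⟩ := (α n).surjective y
    have e : (α n)⁻¹ (α n x) = x := (α n).symm_apply_apply _
    rw [e]
    by_cases hx : x ∈ Subgroup.normalizer (w.1.1 : Set G₀)
    · exact (h2 n hn ⟨x, hx⟩ ⟨α n x, (h5 x).2 hx⟩ (hα n x)).symm
    · rw [w.2.supp x hx, w.2.supp _ (fun h => hx ((h5 x).1 h))]

end inv

end Pool.Agent.Q18.EQ
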