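import Pool.Agent.Q18.EQ.Cnt
import Pool.Agent.Y63.KR.Pairs

/-!
# The number of the invariant classes of weights
-/

set_option autoImplicit false

open scoped Classical

noncomputable section

namespace Pool.Agent.Q18.EQ

open Pool.Agent.Y63.NV
open Pool.Agent.Y487.NV
open Pool.Agent.Y63.KR (bz bz_pos bz_neg bz_congr finsum_bz orbit_sum)
open Pool.Agent.Y63.AWC (IsIrreducibleCharacter)

/-- the subgroups of a finite group -/
local instance fsubE2 {Γ : Type} [Group Γ] [Finite Γ] : Fintype (Subgroup Γ) := Fintype.ofFinite _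

variable {F Γ G₀ : Type} [Field F] [Group Γ] [Finite Γ] [Group G₀] [Finite G₀] {p : ℕ}

theorem orbit_W (red : integralClosure ℤ ℂ →+* F) (α : Γ →* MulAut G₀) {f : G₀ → F}
    (hf : IsClassFun f) (c : F) [Fintype (WT p G₀)] :
    (Nat.card G₀ : ℤ) * nW p red α f c =
      ∑ w : WT p G₀, (Nat.card (Subgroup.normalizer (w.1.1 : Set G₀)) : ℤ) *
        bz (PW red α f c w) := by
  let _ : MulAction G₀ (WT p G₀) := MulAction.compHom _ (MulAut.conj : G₀ →* MulAut G₀)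
  have hPW : ∀ a b : WT p G₀, (wS p G₀).r a b → (PW red α f c a ↔ PW red α f c b) := by
    rintro a b ⟨g, rfl⟩
    constructor
    · exact PW_conj red α hf c a g
    · intro h
      have h1 := PW_conj red α hf c _ g⁻¹ h
      rwa [map_inv, inv_smul_smul] at h1
  have h := orbit_sum (G := G₀) (wS p G₀) (fun a b => Iff.rfl) (fun w => bz (PW red α f c w))
    (fun a b hab => bz_congr (hPW a b hab))
  have h2 : ∑ᶠ κ : Quotient (wS p G₀), bz (PW red α f c κ.out) = (nW p red α f c : ℤ) := by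
    have hfin : Finite (Quotient (wS p G₀)) := inferInstance
    rw [finsum_bz (fun κ : Quotient (wS p G₀) => PW red α f c κ.out)]
    unfold nW
    norm_cast
    refine Nat.card_congr (Equiv.subtypeEquivRight fun κ => ?_)
    constructor
    · intro h3
      exact ⟨κ.out, Quotient.out_eq κ, h3⟩
    · rintro ⟨w, hw, h3⟩
      have h4 : (wS p G₀).r w κ.out := by
        have : (Quotient.mk (wS p G₀) w) = Quotient.mk (wS p G₀) κ.out :=
          hw.trans (Quotient.out_eq κ).symm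
        exact Quotient.eq.mp this
      exact (hPW _ _ h4).mp h3
  rw [h2] at h
  rw [h]
  refine Finset.sum_congr rfl fun w _ => ?_
  congr 2
  refine Nat.card_congr (Equiv.subtypeEquivRight fun g => ?_)
  rw [MulAction.mem_stabilizer_iff]
  change MulAut.conj g • w = w ↔ _
  rw [← mv_conj_norm w.2 g, Subtype.ext_iff, smul_val]

theorem card_inv {j₀ : G₀ →* Γ} (hj₀ : Function.Injective j₀) {G : Subgroup Γ}
    [hG : G.Normal] (hGdef : G = j₀.range) {α : Γ →* MulAut G₀}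
    (hα : ∀ γ x, j₀ (α γ x) = γ * j₀ x * γ⁻¹) (red : integralClosure ℤ ℂ →+* F) (z : Γ → F)
    (c : F) (Q : {Q : Subgroup G₀ // IsPGroup p Q}) :
    Nat.card {ψ : {ψ : Subgroup.normalizer (Q.1 : Set G₀) → ℂ //
        IsWt p (Q.1.subgroupOf (Subgroup.normalizer (Q.1 : Set G₀))) ψ} //
          PW red α (fun x => z (j₀ x)) c ((wE p G₀).symm ⟨Q, ψ⟩)} =
      if G ⊔ Subgroup.normalizer ((Q.1.map j₀ : Subgroup Γ) : Set Γ) = ⊤ then
        invW p red j₀ z c Q.1 else 0 := by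
  have hval : ∀ (ψ : {ψ : Subgroup.normalizer (Q.1 : Set G₀) → ℂ //
        IsWt p (Q.1.subgroupOf (Subgroup.normalizer (Q.1 : Set G₀))) ψ})
      (x : Subgroup.normalizer (Q.1 : Set G₀)), ((wE p G₀).symm ⟨Q, ψ⟩).1.2 x = ψ.1 x := by
    intro ψ x
    change (if h : (x : G₀) ∈ Subgroup.normalizer (Q.1 : Set G₀) then ψ.1 ⟨x, h⟩ else 0) = ψ.1 x
    rw [dif_pos x.2]
  have hlab : ∀ (ψ : {ψ : Subgroup.normalizer (Q.1 : Set G₀) → ℂ //
        IsWt p (Q.1.subgroupOf (Subgroup.normalizer (Q.1 : Set G₀))) ψ}),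
      lab red ((wE p G₀).symm ⟨Q, ψ⟩).1 (fun x => z (j₀ x)) =
        centralValue red ψ.1 (fun x => z (j₀ x)) := by
    intro ψ
    have e : (fun x : Subgroup.normalizer (Q.1 : Set G₀) =>
        ((wE p G₀).symm ⟨Q, ψ⟩).1.2 x) = ψ.1 := funext (hval ψ)
    change centralValue red (fun x : Subgroup.normalizer (Q.1 : Set G₀) =>
        ((wE p G₀).symm ⟨Q, ψ⟩).1.2 x) (fun x => z (j₀ x)) = _
    rw [e]
  by_cases hN : G ⊔ Subgroup.normalizer ((Q.1.map j₀ : Subgroup Γ) : Set Γ) = ⊤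
  · rw [if_pos hN]
    unfold invW
    refine Nat.card_congr
      { toFun := fun ψ => ⟨ψ.1.1, ψ.1.2, ?_, ?_⟩
        invFun := fun ψ => ⟨⟨ψ.1, ψ.2.1⟩, ?_, ?_⟩
        left_inv := fun ψ => rfl
        right_inv := fun ψ => rfl }
    · intro γ hγ x y hxy
      have h1 := ((fix_iff hj₀ hGdef hα _).1 ψ.2.1).2 γ hγ x y hxy
      rw [← hval ψ.1 y, ← hval ψ.1 x]
      exact h1
    · rw [← hlab]
      exact ψ.2.2
    · rw [fix_iff hj₀ hGdef hα]
      refine ⟨hN, fun γ hγ x y hxy => ?_⟩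
      have h1 := ψ.2.2.1 γ hγ x y hxy
      refine (hval ⟨ψ.1, ψ.2.1⟩ y).trans (h1.trans (hval ⟨ψ.1, ψ.2.1⟩ x).symm)
    · rw [hlab]
      exact ψ.2.2.2
  · rw [if_neg hN, Nat.card_eq_zero]
    left
    constructor
    rintro ⟨ψ, h1, _⟩
    exact hN ((fix_iff hj₀ hGdef hα _).1 h1).1

theorem card_norm {j₀ : G₀ →* Γ} (hj₀ : Function.Injective j₀) {G : Subgroup Γ}
    [hG : G.Normal] (hGdef : G = j₀.range) {α : Γ →* MulAut G₀}
    (hα : ∀ γ x, j₀ (α γ x) = γ * j₀ x * γ⁻¹) (Q : Subgroup G₀)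
    (hN : G ⊔ Subgroup.normalizer ((Q.map j₀ : Subgroup Γ) : Set Γ) = ⊤) :
    Nat.card Γ * Nat.card (Subgroup.normalizer (Q : Set G₀)) =
      Nat.card G₀ * Nat.card (Subgroup.normalizer ((Q.map j₀ : Subgroup Γ) : Set Γ)) := by
  obtain ⟨N, hNd⟩ : ∃ N : Subgroup Γ, N = Subgroup.normalizer ((Q.map j₀ : Subgroup Γ) : Set Γ) :=
    ⟨_, rfl⟩
  have hm : ∀ x : G₀, x ∈ Subgroup.normalizer (Q : Set G₀) ↔ j₀ x ∈ N := by
    intro x
    rw [hNd, mem_norm_iff hj₀ hGdef hα, alpha_j hj₀ hα, Subgroup.mem_normalizer_iff]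
    constructor
    · intro h
      ext y
      obtain ⟨y, rfl⟩ := (MulAut.conj x).surjective y
      rw [mem_map_aut, MulAut.conj_apply]
      exact h y
    · intro h y
      rw [← mem_map_aut (MulAut.conj x) Q y, h, MulAut.conj_apply]
  rw [← hNd] at hN ⊢
  have h1 : Nat.card (Subgroup.normalizer (Q : Set G₀)) = Nat.card ↥(G ⊓ N) := by
    refine Nat.card_congr (Equiv.ofBijective (fun x => ⟨j₀ x.1, ?_, ?_⟩) ⟨?_, ?_⟩)
    · rw [hGdef]; exact ⟨x.1, rfl⟩
    · exact (hm x.1).1 x.2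
    · intro x y hxy
      exact Subtype.ext (hj₀ (congrArg (fun t : ↥(G ⊓ N) => (t : Γ)) hxy))
    · rintro ⟨y, hy1, hy2⟩
      rw [hGdef] at hy1
      obtain ⟨x, rfl⟩ := hy1
      exact ⟨⟨x, (hm x).2 hy2⟩, rfl⟩
  have h2 : Nat.card G₀ = Nat.card G := by
    rw [hGdef]
    exact Nat.card_congr (MonoidHom.ofInjective hj₀).toEquiv
  have h3 : G.relIndex N = G.index := by
    rw [← Subgroup.relIndex_sup_right, sup_comm, hN, Subgroup.relIndex_top_right]
  have h4 : Nat.card ↥(G ⊓ N) * G.relIndex N = Nat.card N := by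
    have h6 := Subgroup.card_mul_index ((G ⊓ N).subgroupOf N)
    rw [Nat.card_congr (Subgroup.subgroupOfEquivOfLe (inf_le_right : G ⊓ N ≤ N)).toEquiv] at h6
    rw [← Subgroup.inf_relIndex_right]
    exact h6
  have h5 := Subgroup.card_mul_index G
  rw [h1, h2, ← h4, ← h5, h3]
  ring

/-- **the number of the invariant classes of weights** -/
theorem count_W [Fact p.Prime] [CharP F p] (red : integralClosure ℤ ℂ →+* F) {j₀ : G₀ →* Γ}
    (hj₀ : Function.Injective j₀) {G : Subgroup Γ}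
    [hG : G.Normal] (hGdef : G = j₀.range) (hpg : IsPGroup p (Γ ⧸ G)) {α : Γ →* MulAut G₀}
    (hα : ∀ γ x, j₀ (α γ x) = γ * j₀ x * γ⁻¹) (z : Γ → F) (c : F) (hz : InZ G z) :
    (Nat.card Γ : ℤ) * nW p red α (fun x => z (j₀ x)) c = Wsum p red G ⊤ z c := by
  have hfW : Fintype (WT p G₀) := Fintype.ofFinite _
  have hfQ : Fintype {Q : Subgroup G₀ // IsPGroup p Q} := Fintype.ofFinite _
  have hfψ : ∀ Q : {Q : Subgroup G₀ // IsPGroup p Q},
      Fintype {ψ : Subgroup.normalizer (Q.1 : Set G₀) → ℂ //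
        IsWt p (Q.1.subgroupOf (Subgroup.normalizer (Q.1 : Set G₀))) ψ} := by
    intro Q
    have h1 : Finite {ψ : Subgroup.normalizer (Q.1 : Set G₀) → ℂ //
        IsWt p (Q.1.subgroupOf (Subgroup.normalizer (Q.1 : Set G₀))) ψ} := by
      have : Fintype (Subgroup.normalizer (Q.1 : Set G₀)) := Fintype.ofFinite _
      have h2 := Pool.Agent.Helper884.IC.irr_finite (G := Subgroup.normalizer (Q.1 : Set G₀))
      exact (h2.subset fun ψ (hψ : IsWt p (Q.1.subgroupOf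
        (Subgroup.normalizer (Q.1 : Set G₀))) ψ) => hψ.irr).to_subtype
    exact Fintype.ofFinite _
  have hf : IsClassFun (fun x => z (j₀ x)) := by
    intro g x
    change z (j₀ (g * x * g⁻¹)) = _
    rw [map_mul, map_mul, map_inv, hz.conj]
  have h1 := orbit_W (p := p) red α hf c
  have h2 : ∑ w : WT p G₀, (Nat.card (Subgroup.normalizer (w.1.1 : Set G₀)) : ℤ) *
        bz (PW red α (fun x => z (j₀ x)) c w) =
      ∑ Q : {Q : Subgroup G₀ // IsPGroup p Q},
        (Nat.card (Subgroup.normalizer (Q.1 : Set G₀)) : ℤ) *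
          ((if G ⊔ Subgroup.normalizer ((Q.1.map j₀ : Subgroup Γ) : Set Γ) = ⊤ then
            invW p red j₀ z c Q.1 else 0 : ℕ) : ℤ) := by
    rw [Fintype.sum_equiv (wE p G₀) (fun w => (Nat.card (Subgroup.normalizer (w.1.1 : Set G₀)) : ℤ) *
        bz (PW red α (fun x => z (j₀ x)) c w)) (fun t =>
          (Nat.card (Subgroup.normalizer (t.1.1 : Set G₀)) : ℤ) *
            bz (PW red α (fun x => z (j₀ x)) c ((wE p G₀).symm t))) (fun w => by
              rw [Equiv.symm_apply_apply]; rfl), Fintype.sum_sigma]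
    refine Finset.sum_congr rfl fun Q _ => ?_
    simp only
    rw [← Finset.mul_sum, ← card_inv hj₀ hGdef hα red z c Q,
      ← finsum_bz (fun ψ : {ψ : Subgroup.normalizer (Q.1 : Set G₀) → ℂ //
        IsWt p (Q.1.subgroupOf (Subgroup.normalizer (Q.1 : Set G₀))) ψ} =>
          PW red α (fun x => z (j₀ x)) c ((wE p G₀).symm ⟨Q, ψ⟩)),
      finsum_eq_sum_of_fintype]
  have h3 : (Nat.card Γ : ℤ) * (∑ Q : {Q : Subgroup G₀ // IsPGroup p Q},
        (Nat.card (Subgroup.normalizer (Q.1 : Set G₀)) : ℤ) *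
          ((if G ⊔ Subgroup.normalizer ((Q.1.map j₀ : Subgroup Γ) : Set Γ) = ⊤ then
            invW p red j₀ z c Q.1 else 0 : ℕ) : ℤ)) =
      (Nat.card G₀ : ℤ) * ∑ Q : {Q : Subgroup G₀ // IsPGroup p Q},
        ((if G ⊔ Subgroup.normalizer ((Q.1.map j₀ : Subgroup Γ) : Set Γ) = ⊤ then
          Nat.card (Subgroup.normalizer ((Q.1.map j₀ : Subgroup Γ) : Set Γ)) *
            invW p red j₀ z c Q.1 else 0 : ℕ) : ℤ) := by
    rw [Finset.mul_sum, Finset.mul_sum]
    refine Finset.sum_congr rfl fun Q _ => ?_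
    by_cases hN : G ⊔ Subgroup.normalizer ((Q.1.map j₀ : Subgroup Γ) : Set Γ) = ⊤
    · rw [if_pos hN, if_pos hN]
      have h4 := card_norm hj₀ hGdef hα Q.1 hN
      have h5 : (Nat.card Γ : ℤ) * Nat.card (Subgroup.normalizer (Q.1 : Set G₀)) =
        Nat.card G₀ * Nat.card (Subgroup.normalizer ((Q.1.map j₀ : Subgroup Γ) : Set Γ)) := by
        exact_mod_cast h4
      push_cast
      rw [← mul_assoc, h5]
      ring
    · rw [if_neg hN, if_neg hN]
      simp
  have h6 : ∑ Q : {Q : Subgroup G₀ // IsPGroup p Q},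
        ((if G ⊔ Subgroup.normalizer ((Q.1.map j₀ : Subgroup Γ) : Set Γ) = ⊤ then
          Nat.card (Subgroup.normalizer ((Q.1.map j₀ : Subgroup Γ) : Set Γ)) *
            invW p red j₀ z c Q.1 else 0 : ℕ) : ℤ) = Wsum p red G ⊤ z c := by
    rw [Pool.Agent.Y487.NV.wsum_eq, ← Nat.cast_sum]
    congr 1
    have e1 : ∀ Q : {Q : Subgroup G₀ // IsPGroup p Q},
        (if G ⊔ Subgroup.normalizer ((Q.1.map j₀ : Subgroup Γ) : Set Γ) = ⊤ then
          Nat.card (Subgroup.normalizer ((Q.1.map j₀ : Subgroup Γ) : Set Γ)) *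
            invW p red j₀ z c Q.1 else 0) = ∑ R : Subgroup Γ,
        if IsPGroup p R ∧ G ⊔ R = ⊤ ∧ R.comap j₀ = Q.1 then wl p red z c R else 0 :=
      fun Q => (loc red j₀ hj₀ G hGdef hpg z c hz Q.1 Q.2).symm
    rw [Finset.sum_congr rfl fun Q _ => e1 Q, Finset.sum_comm]
    refine Finset.sum_congr rfl fun R _ => ?_
    by_cases hR : IsPGroup p R ∧ G ⊔ R = ⊤
    · rw [if_pos hR, Finset.sum_eq_single
        (⟨R.comap j₀, hR.1.comap_of_injective j₀ hj₀⟩ : {Q : Subgroup G₀ // IsPGroup p Q})]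
      · rw [if_pos ⟨hR.1, hR.2, rfl⟩]
      · intro Q _ hQ
        rw [if_neg]
        rintro ⟨_, _, h7⟩
        exact hQ (Subtype.ext h7.symm)
      · intro h7
        exact absurd (Finset.mem_univ _) h7
    · rw [if_neg hR]
      refine Finset.sum_eq_zero fun Q _ => if_neg fun h7 => hR ⟨h7.1, h7.2.1⟩
  rw [h2] at h1
  have h7 : (Nat.card G₀ : ℤ) ≠ 0 := by exact_mod_cast Nat.card_pos.ne'
  apply mul_left_cancel₀ h7
  rw [← h6, ← h3, ← h1]
  ring

end Pool.Agent.Q18.EQ
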