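import Pool.Agent.Q18.EQ.Sep

/-!
# The fibres over the blocks
-/

set_option autoImplicit false

open scoped Classical

noncomputable section

set_option linter.unusedSectionVars false
set_option linter.unusedVariables false

namespace Pool.Agent.Q18.EQ

open Pool.Agent.Y63.NV
open Pool.Agent.Q18.K (GP norm_arg)
open Pool.Agent.Y63.AWC (IsIrreducibleCharacter)

variable {F P G₀ : Type} [Field F] [Group G₀] [Finite G₀] [Group P] [Finite P] {p : ℕ}

/-- the number of the invariant irreducible characters with label `c` -/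
def nI (F : Type) [Field F] {G₀ P : Type} [Group G₀] [Group P] (α : P →* MulAut G₀) (f : G₀ → F)
    (c : F) : ℕ :=
  Nat.card {φ : G₀ → F // IsIrrTrace φ ∧ (∀ (γ : P) (x : G₀), φ (α γ x) = φ x) ∧
    ∀ x, ∑ᶠ g : G₀, f g * φ (g * x) = c * φ x}

/-- automorphisms as permutations -/
def actP (α : P →* MulAut G₀) : P →* Equiv.Perm G₀ := (MulAut.toPerm G₀).comp α

theorem gp_act (α : P →* MulAut G₀) (γ : P) : GP (actP α γ) where
  one := map_one (α γ)
  inv x := map_inv (α γ) x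
  irr χ hχ := Pool.Agent.Y63.AWC.irr_comp (α γ) hχ
  cnj g x := ⟨α γ g, by
    change α γ (g * x * g⁻¹) = α γ g * α γ x * (α γ g)⁻¹
    rw [map_mul, map_mul, map_inv]⟩

/-- the invariant class functions -/
def VI (F : Type) [Field F] (α : P →* MulAut G₀) : Submodule F (G₀ → F) where
  carrier := {f | IsClassFun f ∧ ∀ (γ : P) (x : G₀), f (α γ x) = f x}
  zero_mem' := ⟨fun _ _ => rfl, fun _ _ => rfl⟩
  add_mem' := by
    rintro a b ⟨ha, ha'⟩ ⟨hb, hb'⟩
    exact ⟨fun g x => by rw [Pi.add_apply, Pi.add_apply, ha, hb],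
      fun u x => by rw [Pi.add_apply, Pi.add_apply, ha', hb']⟩
  smul_mem' := by
    rintro c a ⟨ha, ha'⟩
    exact ⟨fun g x => by rw [Pi.smul_apply, Pi.smul_apply, ha],
      fun u x => by rw [Pi.smul_apply, Pi.smul_apply, ha']⟩

/-- a block as a functional on the invariant class functions -/
def blI (α : P →* MulAut G₀) {B : (G₀ → F) → F} (hB : IsBlock B) : VI F α →ₗ[F] F where
  toFun z := B z.1
  map_add' a b := hB.add _ _ a.2.1 b.2.1
  map_smul' c a := hB.smul c _ a.2.1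

/-- two colours of blocks which agree on the invariant class functions -/
theorem col_agree (α : P →* MulAut G₀) {L B : (G₀ → F) → F} (hL : IsBlock L) (hB : IsBlock B)
    {cl cb : Col F G₀} (hcl : ∀ f, cl f = L f.1) (hcb : ∀ f, cb f = B f.1)
    (hinv : ∀ γ : P, α γ • cl = cl) (h : ∀ z ∈ VI F α, L z = B z) : cl = cb := by
  have : Fintype G₀ := Fintype.ofFinite G₀
  funext f
  rw [hcl, hcb]
  refine norm_arg (actP α) (gp_act α) hL hB ?_ ?_ f.1 f.2
  · intro γ f hf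
    have h1 := congrFun (hinv γ) ⟨f, hf⟩
    rw [col_smul, hcl, hcl] at h1
    exact h1
  · intro f hf hfu
    exact h f ⟨hf, fun γ x => hfu γ x⟩

theorem ib_fix_iff (α : P →* MulAut G₀) (φ : IB F G₀) :
    (∀ γ : P, α γ • φ = φ) ↔ ∀ (γ : P) (x : G₀), φ.1 (α γ x) = φ.1 x := by
  constructor
  · intro h γ x
    have h1 := congrFun (congrArg Subtype.val (h γ)) (α γ x)
    rw [ib_smul] at h1
    have e : (α γ)⁻¹ (α γ x) = x := (α γ).symm_apply_apply x
    rw [e] at h1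
    exact h1.symm
  · intro h γ
    apply Subtype.ext
    funext x
    rw [ib_smul]
    have h1 := h γ ((α γ)⁻¹ x)
    have e : (α γ) ((α γ)⁻¹ x) = x := (α γ).apply_symm_apply x
    rw [e] at h1
    exact h1.symm

theorem wc_fix_iff (α : P →* MulAut G₀) (w : WT p G₀) :
    (∀ γ : P, α γ • mkW w = mkW w) ↔ ∀ γ : P, ∃ g : G₀, α γ • w = MulAut.conj g • w := by
  refine forall_congr' fun γ => ?_
  rw [wc_smul, eq_comm, mkW_eq]
  exact ⟨fun ⟨g, hg⟩ => ⟨g, hg.symm⟩, fun ⟨g, hg⟩ => ⟨g, hg.symm⟩⟩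

/-- the labels of the invariant classes of weights -/
theorem nW_eq [IsAlgClosed F] (red : integralClosure ℤ ℂ →+* F) (α : P →* MulAut G₀)
    (f : {f : G₀ → F // IsClassFun f}) (c : F) :
    nW p red α f.1 c =
      Nat.card {κ : WC p G₀ // colW red κ f = c ∧ ∀ γ : P, α γ • κ = κ} := by
  unfold nW
  refine Nat.card_congr (Equiv.subtypeEquivRight fun κ => ?_)
  constructor
  · rintro ⟨w, rfl, h1, h2⟩
    exact ⟨h2, (wc_fix_iff α w).2 h1⟩
  · rintro ⟨h1, h2⟩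
    obtain ⟨w, rfl⟩ := mkW_surj κ
    exact ⟨w, rfl, (wc_fix_iff α w).1 h2, h1⟩

/-- the labels of the invariant characters -/
theorem nI_eq [IsAlgClosed F] (α : P →* MulAut G₀) (f : {f : G₀ → F // IsClassFun f}) (c : F) :
    nI F α f.1 c =
      Nat.card {φ : IB F G₀ // colI φ f = c ∧ ∀ γ : P, α γ • φ = φ} := by
  unfold nI
  refine Nat.card_congr
    { toFun := fun φ => ⟨⟨φ.1, φ.2.1⟩, (colI_iff _ f c).1 φ.2.2.2, (ib_fix_iff α _).2 φ.2.2.1⟩
      invFun := fun φ => ⟨φ.1.1, φ.1.2, (ib_fix_iff α _).1 φ.2.2, (colI_iff _ f c).2 φ.2.1⟩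
      left_inv := fun φ => rfl
      right_inv := fun φ => rfl }

instance ib_fin [IsAlgClosed F] : Finite (IB F G₀) :=
  (Pool.Agent.Y914.NV.irr F G₀).1.to_subtype

/-- **the fibres over the blocks** -/
theorem fibre_eq [Fact p.Prime] [IsAlgClosed F] [CharP F p] (red : integralClosure ℤ ℂ →+* F)
    (α : P →* MulAut G₀)
    (hIW : ∀ f : G₀ → F, IsClassFun f → (∀ (γ : P) (x : G₀), f (α γ x) = f x) → ∀ c : F,
      nI F α f c = nW p red α f c) (col : Col F G₀) :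
    Nat.card {φ : IB F G₀ // colI φ = col ∧ ∀ γ : P, α γ • φ = φ} =
      Nat.card {κ : WC p G₀ // colW red κ = col ∧ ∀ γ : P, α γ • κ = κ} := by
  have hInf : Infinite F := inferInstance
  have hfW : Finite (WC p G₀) := Quotient.finite _
  let I : Type := {φ : IB F G₀ // ∀ γ : P, α γ • φ = φ} ⊕ {κ : WC p G₀ // ∀ γ : P, α γ • κ = κ}
  let cI : I → Col F G₀ := Sum.elim (fun φ => colI φ.1) (fun κ => colW red κ.1)
  have hblk : ∀ i : I, ∃ B : (G₀ → F) → F, IsBlock B ∧ ∀ f, cI i f = B f.1 := by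
    rintro (φ | κ)
    · exact colI_block φ.1
    · exact colW_block red κ.1
  have hinv : ∀ (i : I) (γ : P), α γ • cI i = cI i := by
    rintro (φ | κ) γ
    · change α γ • colI φ.1 = colI φ.1
      rw [← colI_smul, φ.2 γ]
    · change α γ • colW red κ.1 = colW red κ.1
      rw [← colW_smul, κ.2 γ]
  by_cases hc : ∃ i : I, cI i = col
  · obtain ⟨i₀, rfl⟩ := hc
    choose B hB hBc using hblk
    obtain ⟨z, hz⟩ := Pool.Agent.Y286.NV.exists_sep (fun i : I => blI α (hB i)) (blI α (hB i₀))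
    have key : ∀ i : I, cI i ⟨z.1, z.2.1⟩ = cI i₀ ⟨z.1, z.2.1⟩ ↔ cI i = cI i₀ := by
      intro i
      constructor
      · intro h
        rw [hBc, hBc] at h
        have h1 := hz i h
        exact col_agree α (hB i) (hB i₀) (hBc i) (hBc i₀) (hinv i)
          fun z' hz' => LinearMap.congr_fun h1 ⟨z', hz'⟩
      · intro h
        rw [h]
    have h1 := hIW z.1 z.2.1 z.2.2 (cI i₀ ⟨z.1, z.2.1⟩)
    have h2 := nI_eq α (⟨z.1, z.2.1⟩ : {f : G₀ → F // IsClassFun f}) (cI i₀ ⟨z.1, z.2.1⟩)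
    have h3 := nW_eq (p := p) red α (⟨z.1, z.2.1⟩ : {f : G₀ → F // IsClassFun f})
      (cI i₀ ⟨z.1, z.2.1⟩)
    have h4 : Nat.card {φ : IB F G₀ // colI φ ⟨z.1, z.2.1⟩ = cI i₀ ⟨z.1, z.2.1⟩ ∧
        ∀ γ : P, α γ • φ = φ} = Nat.card {φ : IB F G₀ // colI φ = cI i₀ ∧
        ∀ γ : P, α γ • φ = φ} :=
      Nat.card_congr (Equiv.subtypeEquivRight fun φ =>
        and_congr_left fun hφ => key (Sum.inl ⟨φ, hφ⟩))
    have h5 : Nat.card {κ : WC p G₀ // colW red κ ⟨z.1, z.2.1⟩ = cI i₀ ⟨z.1, z.2.1⟩ ∧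
        ∀ γ : P, α γ • κ = κ} = Nat.card {κ : WC p G₀ // colW red κ = cI i₀ ∧
        ∀ γ : P, α γ • κ = κ} :=
      Nat.card_congr (Equiv.subtypeEquivRight fun κ =>
        and_congr_left fun hκ => key (Sum.inr ⟨κ, hκ⟩))
    rw [← h4, ← h5, ← h2, ← h3]
    exact h1
  · have e1 : Nat.card {φ : IB F G₀ // colI φ = col ∧ ∀ γ : P, α γ • φ = φ} = 0 := by
      rw [Nat.card_eq_zero]
      exact Or.inl ⟨fun φ => hc ⟨Sum.inl ⟨φ.1, φ.2.2⟩, φ.2.1⟩⟩
    have e2 : Nat.card {κ : WC p G₀ // colW red κ = col ∧ ∀ γ : P, α γ • κ = κ} = 0 := by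
      rw [Nat.card_eq_zero]
      exact Or.inl ⟨fun κ => hc ⟨Sum.inr ⟨κ.1, κ.2.2⟩, κ.2.1⟩⟩
    rw [e1, e2]

end Pool.Agent.Q18.EQ
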