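import Pool.Agent.Y63.NV.PeL

/-!
# The count of Dade, Glauberman and Nagao for the weights at one `p`-subgroup
-/

set_option autoImplicit false

open scoped Classical

noncomputable section

namespace Pool.Agent.Q18.EQ

open Pool.Agent.Y63.NV
open Pool.Agent.Y487.NV
open Pool.Agent.Y210.NV3 (nw_comap card_comap wt_iff wt_exists)
open Pool.Agent.Y63.AWC (IsIrreducibleCharacter)

/-- the subgroups of a finite group -/
local instance fsubE {Γ : Type} [Group Γ] [Finite Γ] : Fintype (Subgroup Γ) := Fintype.ofFinite _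

section

variable {F Γ G₀ : Type} [Field F] [Group Γ] [Finite Γ] [Group G₀] [Finite G₀] {p : ℕ}

/-- the invariant weight characters at `Q₁` with label `c` -/
def invW (p : ℕ) (red : integralClosure ℤ ℂ →+* F) (j₀ : G₀ →* Γ) (z : Γ → F) (c : F)
    (Q₁ : Subgroup G₀) : ℕ :=
  Nat.card {ψ : Subgroup.normalizer (Q₁ : Set G₀) → ℂ //
    IsWt p (Q₁.subgroupOf (Subgroup.normalizer (Q₁ : Set G₀))) ψ ∧
    (∀ γ ∈ Subgroup.normalizer ((Q₁.map j₀ : Subgroup Γ) : Set Γ),
      ∀ x y : Subgroup.normalizer (Q₁ : Set G₀), j₀ y = γ * j₀ x * γ⁻¹ → ψ y = ψ x) ∧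
    centralValue red ψ (fun x => z (j₀ x)) = c}

theorem isWt_bot {X : Type} [Group X] [Finite X] (χ : X → ℂ) :
    IsWt p (⊥ : Subgroup X) χ ↔ IsIrreducibleCharacter χ ∧
      ∃ n : ℕ, χ 1 = (n : ℂ) ∧ n.factorization p = (Nat.card X).factorization p := by
  constructor
  · intro h
    refine ⟨h.irr, ?_⟩
    obtain ⟨n, hn, h2⟩ := h.defectZero
    refine ⟨n, hn, ?_⟩
    rw [Subgroup.card_bot, Nat.factorization_one, Finsupp.zero_apply, add_zero] at h2
    exact h2
  · rintro ⟨h1, n, hn, h2⟩
    refine ⟨h1, ?_, n, hn, ?_⟩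
    · intro q hq x
      rw [Subgroup.mem_bot.1 hq, one_mul]
    · rw [Subgroup.card_bot, Nat.factorization_one, Finsupp.zero_apply, add_zero]
      exact h2

theorem fib_gen {N Y A : Type} [Group N] [Group Y] [Group A] [Finite N] [Finite A]
    (π : N →* Y) (zN : N → F) (j : A →* N) (hj : Function.Injective j)
    (V : Subgroup Y) (hV : ∀ n, π n ∈ V ↔ n ∈ j.range) (φ : A →* V)
    (hφ : ∀ a, (φ a : Y) = π (j a)) :
    (fun y : V => ∑ᶠ a : A, @ite F (φ a = y) (Classical.propDecidable _) (zN (j a)) 0) =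
      fun y : V => fib π zN y := by
  funext y
  unfold fib
  have e1 : ∀ n : N, (if π n = (y : Y) then zN n else 0) =
      ∑ᶠ (_ : n ∈ Set.range j), (if π n = (y : Y) then zN n else 0) := by
    intro n
    rw [finsum_eq_if]
    by_cases hn : n ∈ Set.range j
    · rw [if_pos hn]
    · rw [if_neg hn, if_neg]
      intro h
      apply hn
      have h2 : π n ∈ V := by rw [h]; exact y.2
      exact (hV n).1 h2
  rw [finsum_congr e1, finsum_mem_range hj]
  refine finsum_congr fun a => ?_
  have h3 : φ a = y ↔ π (j a) = (y : Y) := by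
    rw [Subtype.ext_iff, hφ]
  by_cases h4 : φ a = y
  · rw [if_pos h4, if_pos (h3.1 h4)]
  · rw [if_neg h4, if_neg fun h5 => h4 (h3.2 h5)]

/-- **the local count** -/
theorem loc [Fact p.Prime] [CharP F p] (red : integralClosure ℤ ℂ →+* F) (j₀ : G₀ →* Γ)
    (hj₀ : Function.Injective j₀) (G : Subgroup Γ) [hG : G.Normal] (hGdef : G = j₀.range)
    (hpg : IsPGroup p (Γ ⧸ G))
    (z : Γ → F) (c : F) (hz : InZ G z) (Q₁ : Subgroup G₀) (hQ₁ : IsPGroup p Q₁) :
    (∑ R : Subgroup Γ,
      if IsPGroup p R ∧ G ⊔ R = ⊤ ∧ R.comap j₀ = Q₁ then wl p red z c R else 0) =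
    if G ⊔ Subgroup.normalizer ((Q₁.map j₀ : Subgroup Γ) : Set Γ) = ⊤ then
      Nat.card (Subgroup.normalizer ((Q₁.map j₀ : Subgroup Γ) : Set Γ)) *
        invW p red j₀ z c Q₁ else 0 := by
  have hp : p.Prime := Fact.out
  unfold invW
  have hjG : ∀ x : G₀, j₀ x ∈ G := fun x => by rw [hGdef]; exact ⟨x, rfl⟩
  have hGj : ∀ g ∈ G, ∃ x : G₀, j₀ x = g := fun g hg => by rw [hGdef] at hg; exact hg
  obtain ⟨Q, hQ⟩ : ∃ Q : Subgroup Γ, Q = Q₁.map j₀ := ⟨_, rfl⟩
  rw [← hQ]
  have hQG : Q ≤ G := by
    rw [hQ]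
    rintro _ ⟨x, _, rfl⟩
    exact hjG x
  have hQcomap : Q.comap j₀ = Q₁ := by
    rw [hQ]
    exact Subgroup.comap_map_eq_self_of_injective hj₀ Q₁
  have hQp : IsPGroup p Q := by
    rw [hQ]
    exact hQ₁.map _
  have hmemQ : ∀ x : G₀, j₀ x ∈ Q ↔ x ∈ Q₁ := by
    intro x
    rw [← hQcomap]
    rfl
  -- the subgroups `R` with `R ∩ G = Q`
  have hRQ : ∀ R : Subgroup Γ, R.comap j₀ = Q₁ → ∀ x : Γ, x ∈ Q ↔ x ∈ R ∧ x ∈ G := by
    intro R hR x
    constructor
    · intro hx
      obtain ⟨x, rfl⟩ := hGj x (hQG hx)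
      have h3 : x ∈ Q₁ := (hmemQ x).1 hx
      rw [← hR] at h3
      exact ⟨h3, hjG x⟩
    · rintro ⟨hx, hxG⟩
      obtain ⟨x, rfl⟩ := hGj x hxG
      have h3 : x ∈ R.comap j₀ := hx
      rw [hR] at h3
      exact (hmemQ x).2 h3
  have hNR : ∀ R : Subgroup Γ, R.comap j₀ = Q₁ →
      Subgroup.normalizer (R : Set Γ) ≤ Subgroup.normalizer (Q : Set Γ) := by
    intro R hR x hx
    rw [Subgroup.mem_normalizer_iff] at hx ⊢
    intro h
    rw [hRQ R hR, hRQ R hR]
    refine and_congr (hx h) ⟨fun h3 => hG.conj_mem h h3 x, fun h3 => ?_⟩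
    have h4 := hG.conj_mem _ h3 x⁻¹
    have h5 : x⁻¹ * (x * h * x⁻¹) * x⁻¹⁻¹ = h := by group
    rwa [h5] at h4
  have hAG := Subgroup.comap_normalizer_eq_of_le_range (f := j₀) (H := Q)
    (by rw [← hGdef]; exact hQG)
  rw [hQcomap] at hAG
  have hA0 : ∀ x : G₀, x ∈ Subgroup.normalizer (Q₁ : Set G₀) ↔
      j₀ x ∈ Subgroup.normalizer (Q : Set Γ) := by
    intro x
    rw [← hAG]
    rfl
  obtain ⟨N, hNdef⟩ : ∃ N : Subgroup Γ, N = Subgroup.normalizer (Q : Set Γ) := ⟨_, rfl⟩
  rw [← hNdef] at hA0 ⊢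
  by_cases hN : G ⊔ N = ⊤
  swap
  · -- no subgroups `R`
    rw [if_neg hN]
    refine Finset.sum_eq_zero fun R _ => if_neg ?_
    rintro ⟨-, hR2, hR3⟩
    have h3 : R ≤ N := by rw [hNdef]; exact Subgroup.le_normalizer.trans (hNR R hR3)
    apply hN
    rw [eq_top_iff, ← hR2]
    exact sup_le_sup_left h3 G
  · -- the quotient
    rw [if_pos hN]
    have hQN : Q ≤ N := by rw [hNdef]; exact Subgroup.le_normalizer
    have hnorm : (Q.subgroupOf N).Normal := by
      subst hNdef
      infer_instance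
    obtain ⟨π, hπ⟩ : ∃ π : N →* N ⧸ Q.subgroupOf N, π = QuotientGroup.mk' (Q.subgroupOf N) :=
      ⟨_, rfl⟩
    have hπs : Function.Surjective π := by
      rw [hπ]; exact QuotientGroup.mk'_surjective _
    have hπr : π.range = ⊤ := MonoidHom.range_eq_top.2 hπs
    have hπk : π.ker = Q.subgroupOf N := by
      rw [hπ]; exact QuotientGroup.ker_mk' _
    have hπ1 : ∀ x : N, π x = 1 ↔ (x : Γ) ∈ Q := by
      intro x
      rw [← MonoidHom.mem_ker, hπk, Subgroup.mem_subgroupOf]
    have hcardQ : Nat.card (Q.subgroupOf N) = Nat.card Q :=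
      Nat.card_congr (Subgroup.subgroupOfEquivOfLe hQN).toEquiv
    -- the image of `G ∩ N`
    obtain ⟨X, hX⟩ : ∃ X : Subgroup (N ⧸ Q.subgroupOf N), X = (G.subgroupOf N).map π := ⟨_, rfl⟩
    have hXn : X.Normal := by
      rw [hX]
      exact Subgroup.Normal.map inferInstance π hπs
    have hXm : ∀ x : N, π x ∈ X ↔ (x : Γ) ∈ G := by
      intro x
      rw [hX]
      constructor
      · rintro ⟨y, hy, hyx⟩
        have h3 : π (y⁻¹ * x) = 1 := by rw [map_mul, map_inv, hyx, inv_mul_cancel]
        have h4 : ((y⁻¹ * x : N) : Γ) ∈ G := hQG ((hπ1 _).1 h3)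
        have h5 : (y : Γ) ∈ G := hy
        have h6 := G.mul_mem h5 h4
        have h7 : (y : Γ) * ((y⁻¹ * x : N) : Γ) = x := by
          push_cast
          group
        rwa [h7] at h6
      · intro hx
        exact ⟨x, hx, rfl⟩
    have hXp : IsPGroup p ((N ⧸ Q.subgroupOf N) ⧸ X) := by
      intro y
      obtain ⟨y, rfl⟩ := QuotientGroup.mk_surjective y
      obtain ⟨n, rfl⟩ := hπs y
      obtain ⟨k, hk⟩ := hpg ((n : Γ) : Γ ⧸ G)
      refine ⟨k, ?_⟩
      rw [← QuotientGroup.mk_pow, QuotientGroup.eq_one_iff] at hk ⊢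
      rw [← map_pow, hXm]
      exact hk
    have hcardN : Nat.card N = Nat.card Q * Nat.card (N ⧸ Q.subgroupOf N) := by
      rw [Subgroup.card_eq_card_quotient_mul_card_subgroup (Q.subgroupOf N), hcardQ, mul_comm]
    -- the label function
    obtain ⟨zY, hzY⟩ : ∃ zY : N ⧸ Q.subgroupOf N → F, zY = fib π (fun x : N => z x) := ⟨_, rfl⟩
    have hInZ : InZ X zY := by
      constructor
      · intro g x
        obtain ⟨g', rfl⟩ := hπs g
        rw [hzY]
        unfold fib
        rw [← finsum_comp_equiv (MulAut.conj g').toEquiv]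
        refine finsum_congr fun n => ?_
        have h3 : (MulAut.conj g').toEquiv n = g' * n * g'⁻¹ := rfl
        rw [h3, map_mul, map_mul, map_inv]
        have h4 : (fun x : N => z (x : Γ)) (g' * n * g'⁻¹) = (fun x : N => z (x : Γ)) n :=
          hz.conj g' n
        rw [h4]
        have h5 : π g' * π n * (π g')⁻¹ = π g' * x * (π g')⁻¹ ↔ π n = x := by
          rw [mul_left_inj, mul_right_inj]
        by_cases h6 : π n = x
        · rw [if_pos h6, if_pos (h5.2 h6)]
        · rw [if_neg h6, if_neg fun h7 => h6 (h5.1 h7)]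
      · intro x hx
        rw [hzY]
        unfold fib
        refine (finsum_congr fun n => ?_).trans finsum_zero
        split_ifs with h4
        · refine hz.supp n fun h5 => hx ?_
          rw [← h4, hXm]
          exact h5
        · rfl
    -- the group `N_G(Q) / Q`
    obtain ⟨j, hj⟩ : ∃ j : Subgroup.normalizer (Q₁ : Set G₀) →* N, ∀ x, (j x : Γ) = j₀ x :=
      ⟨(j₀.comp (Subgroup.subtype _)).codRestrict N fun x => (hA0 x).1 x.2, fun x => rfl⟩
    have hjV : ∀ n : N, π n ∈ X ↔ n ∈ j.range := by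
      intro n
      rw [hXm]
      constructor
      · intro hn
        obtain ⟨g, hg⟩ := hGj n hn
        refine ⟨⟨g, (hA0 _).2 (by rw [hg]; exact n.2)⟩, Subtype.ext ?_⟩
        rw [hj]
        exact hg
      · rintro ⟨x, rfl⟩
        rw [hj]
        exact hjG _
    obtain ⟨φ, hφ0⟩ : ∃ φ : Subgroup.normalizer (Q₁ : Set G₀) →* X, ∀ x, (φ x : _) = π (j x) :=
      ⟨(π.comp j).codRestrict X (fun a => (hjV _).2 ⟨a, rfl⟩), fun x => rfl⟩
    have hφ : Function.Surjective φ := by
      rintro ⟨v, hv⟩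
      obtain ⟨n, rfl⟩ := hπs v
      obtain ⟨a, rfl⟩ := (hjV n).1 hv
      exact ⟨a, Subtype.ext (hφ0 a)⟩
    have hker : (⊥ : Subgroup X).comap φ = Q₁.subgroupOf (Subgroup.normalizer (Q₁ : Set G₀)) := by
      ext a
      rw [Subgroup.mem_comap, Subgroup.mem_bot, Subtype.ext_iff, hφ0]
      change π (j a) = 1 ↔ _
      rw [hπ1, hj, hmemQ, Subgroup.mem_subgroupOf]
    -- the function `z` on `N_G(Q)`
    have hzc : IsClassFun (fun x : Subgroup.normalizer (Q₁ : Set G₀) => z (j₀ x)) := by
      intro g x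
      change z (j₀ ((g : G₀) * x * (g : G₀)⁻¹)) = _
      rw [map_mul, map_mul, map_inv, hz.conj]
    have hji : Function.Injective j := by
      intro x y hxy
      have h3 := congrArg (fun t : N => (t : Γ)) hxy
      simp only [hj] at h3
      exact Subtype.ext (hj₀ h3)
    have hfibX := fib_gen π (fun x : N => z x) j hji X hjV φ hφ0
    simp only [hj] at hfibX
    rw [← hzY] at hfibX
    -- the invariant weights of `N_G(Q)` and of its quotient
    have hinv : numInvDzL p red X zY c = Nat.card {ψ : Subgroup.normalizer (Q₁ : Set G₀) → ℂ //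
        IsWt p (Q₁.subgroupOf (Subgroup.normalizer (Q₁ : Set G₀))) ψ ∧
        (∀ γ ∈ N, ∀ x y : Subgroup.normalizer (Q₁ : Set G₀), j₀ y = γ * j₀ x * γ⁻¹ →
          ψ y = ψ x) ∧ centralValue red ψ (fun x => z (j₀ x)) = c} := by
      unfold numInvDzL
      have hXfin : Finite X := inferInstance
      refine Nat.card_congr (Equiv.ofBijective
        (fun χ => ⟨fun x => χ.1 (φ x), ?_, ?_, ?_⟩) ⟨?_, ?_⟩)
      · rw [← hker]
        exact (wt_iff φ hφ p ⊥ χ.1).2 ((isWt_bot χ.1).2 ⟨χ.2.1.1, χ.2.1.2.1⟩)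
      · intro γ hγ x y hxy
        refine χ.2.1.2.2 (π ⟨γ, hγ⟩) (φ x) (φ y) ?_
        rw [hφ0, hφ0, ← map_mul, ← map_inv, ← map_mul]
        congr 1
        apply Subtype.ext
        change (j y : Γ) = γ * (j x : Γ) * γ⁻¹
        rw [hj, hj, hxy]
      · have h1 := Pool.Agent.Y930.NV.inf F red _ _ φ χ.1 (fun x => z (j₀ x)) hφ χ.2.1.1 hzc
        rw [h1]
        refine Eq.trans (congrArg _ (funext fun y => ?_)) χ.2.2
        refine Eq.trans (finsum_congr fun x => ?_) (congrFun hfibX y)
        by_cases h : φ x = y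
        · rw [if_pos h, if_pos h]
        · rw [if_neg h, if_neg h]
      · intro χ χ' h
        apply Subtype.ext
        funext y
        obtain ⟨x, rfl⟩ := hφ y
        exact congrFun (congrArg Subtype.val h) x
      · rintro ⟨ψ, h2, h3, h4⟩
        have h2' := h2
        rw [← hker] at h2'
        obtain ⟨χ', rfl⟩ := wt_exists φ hφ p ⊥ h2'
        have h5 := (wt_iff φ hφ p ⊥ χ').1 h2'
        refine ⟨⟨χ', ⟨h5.irr, ((isWt_bot χ').1 h5).2, ?_⟩, ?_⟩, rfl⟩
        · intro y a b hab
          obtain ⟨γ, rfl⟩ := hπs y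
          obtain ⟨x, rfl⟩ := hφ a
          -- the conjugate of `x`
          have h6 : γ * j x * γ⁻¹ ∈ j.range := by
            rw [← hjV, map_mul, map_mul, map_inv, ← hφ0, ← hab]
            exact b.2
          obtain ⟨x', hx'⟩ := h6
          have h7 : b = φ x' := by
            apply Subtype.ext
            rw [hab, hφ0, hφ0, hx', map_mul, map_mul, map_inv]
          rw [h7]
          refine h3 γ γ.2 x x' ?_
          rw [← hj, hx']
          change (γ : Γ) * (j x : Γ) * (γ : Γ)⁻¹ = _
          rw [hj]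
        · have h1 := Pool.Agent.Y930.NV.inf F red _ _ φ χ' (fun x => z (j₀ x)) hφ h5.irr hzc
          rw [h4] at h1
          refine Eq.trans ?_ h1.symm
          refine congrArg _ (funext fun y => ?_)
          refine Eq.trans (congrFun hfibX y).symm (finsum_congr fun x => ?_)
          by_cases h : φ x = y
          · rw [if_pos h, if_pos h]
          · rw [if_neg h, if_neg h]
    rw [← hinv]
    have hdgn := dgnL' p F red (N ⧸ Q.subgroupOf N) X zY c hXp hInZ
    -- the sum over the complements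
    have hsum : (∑ R : Subgroup Γ,
        if IsPGroup p R ∧ G ⊔ R = ⊤ ∧ R.comap j₀ = Q₁ then wl p red z c R else 0) =
        Nat.card Q * ∑ R' : Subgroup (N ⧸ Q.subgroupOf N),
          if IsPGroup p R' ∧ X ⊔ R' = ⊤ ∧ X ⊓ R' = ⊥ then
            Nat.card (Subgroup.normalizer (R' : Set (N ⧸ Q.subgroupOf N))) *
              Nw p red (R'.subgroupOf (Subgroup.normalizer (R' : Set (N ⧸ Q.subgroupOf N))))
                (fun x => zY x) c else 0 := by
      rw [Finset.mul_sum, ← Finset.sum_filter]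
      have h3 : ∀ R' : Subgroup (N ⧸ Q.subgroupOf N), Nat.card Q *
          (if IsPGroup p R' ∧ X ⊔ R' = ⊤ ∧ X ⊓ R' = ⊥ then
            Nat.card (Subgroup.normalizer (R' : Set (N ⧸ Q.subgroupOf N))) *
              Nw p red (R'.subgroupOf (Subgroup.normalizer (R' : Set (N ⧸ Q.subgroupOf N))))
                (fun x => zY x) c else 0) =
          if IsPGroup p R' ∧ X ⊔ R' = ⊤ ∧ X ⊓ R' = ⊥ then
            Nat.card Q * (Nat.card (Subgroup.normalizer (R' : Set (N ⧸ Q.subgroupOf N))) *
              Nw p red (R'.subgroupOf (Subgroup.normalizer (R' : Set (N ⧸ Q.subgroupOf N))))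
                (fun x => zY x) c) else 0 := fun R' => by
        rw [mul_ite, mul_zero]
      rw [Finset.sum_congr rfl fun R' _ => h3 R', ← Finset.sum_filter]
      have hfix : ∀ R : Subgroup Γ, R.comap j₀ = Q₁ →
          ((R.subgroupOf N).map π).comap π = R.subgroupOf N := by
        intro R hR
        rw [Subgroup.comap_map_eq, hπk, sup_eq_left]
        intro x hx
        exact ((hRQ R hR _).1 hx).1
      have hRN : ∀ R : Subgroup Γ, R.comap j₀ = Q₁ → R ≤ N := by
        intro R hR
        rw [hNdef]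
        exact Subgroup.le_normalizer.trans (hNR R hR)
      refine Finset.sum_nbij' (fun R => (R.subgroupOf N).map π)
        (fun R' => (R'.comap π).map N.subtype) ?_ ?_ ?_ ?_ ?_
      · intro R hR
        rw [Finset.mem_filter] at hR ⊢
        obtain ⟨-, hR1, hR2, hR3⟩ := hR
        refine ⟨Finset.mem_univ _, IsPGroup.map (IsPGroup.comap_subtype hR1) π, ?_, ?_⟩
        · rw [eq_top_iff]
          intro y _
          obtain ⟨n, rfl⟩ := hπs y
          have h4 : (n : Γ) ∈ ((G ⊔ R : Subgroup Γ) : Set Γ) := by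
            rw [hR2]; exact Subgroup.mem_top _
          rw [Subgroup.normal_mul, Set.mem_mul] at h4
          obtain ⟨g, hg, r, hr, hgr⟩ := h4
          have hrN : r ∈ N := hRN R hR3 hr
          have hgN : g ∈ N := by
            have : g = (n : Γ) * r⁻¹ := by rw [← hgr]; group
            rw [this]
            exact N.mul_mem n.2 (N.inv_mem hrN)
          have h5 : n = ⟨g, hgN⟩ * ⟨r, hrN⟩ := Subtype.ext hgr.symm
          rw [h5, map_mul]
          exact Subgroup.mul_mem_sup ((hXm _).2 hg) ⟨⟨r, hrN⟩, hr, rfl⟩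
        · rw [eq_bot_iff]
          intro y hy
          obtain ⟨hy1, hy2⟩ := hy
          obtain ⟨r, hr, rfl⟩ := hy2
          have hy3 : (r : Γ) ∈ G := (hXm r).1 hy1
          rw [Subgroup.mem_bot, hπ1, hRQ R hR3]
          exact ⟨hr, hy3⟩
      · intro R' hR'
        rw [Finset.mem_filter] at hR' ⊢
        obtain ⟨-, hR1, hR2, hR3⟩ := hR'
        have hker : IsPGroup p π.ker := by
          rw [hπk]
          exact IsPGroup.comap_subtype hQp
        refine ⟨Finset.mem_univ _, IsPGroup.map (IsPGroup.comap_of_ker_isPGroup hR1 π hker) _,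
          ?_, ?_⟩
        · rw [eq_top_iff, ← hN]
          refine sup_le le_sup_left ?_
          intro x hx
          have h4 : π ⟨x, hx⟩ ∈ ((X ⊔ R' : Subgroup _) : Set (N ⧸ Q.subgroupOf N)) := by
            rw [hR2]; exact Subgroup.mem_top _
          rw [Subgroup.normal_mul, Set.mem_mul] at h4
          obtain ⟨a, ha, r, hr, har⟩ := h4
          obtain ⟨a', rfl⟩ := hπs a
          obtain ⟨r', rfl⟩ := hπs r
          have h5 : π ((a' * r')⁻¹ * ⟨x, hx⟩) = 1 := by
            rw [map_mul, map_inv, map_mul, har, inv_mul_cancel]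
          have h6 := hQG ((hπ1 _).1 h5)
          have h7 : (x : Γ) = (a' : Γ) * ((r' : Γ) * (((a' * r')⁻¹ * ⟨x, hx⟩ : N) : Γ)) := by
            push_cast
            group
          rw [h7]
          refine Subgroup.mul_mem _ (Subgroup.mem_sup_left ((hXm _).1 ha))
            (Subgroup.mul_mem _ (Subgroup.mem_sup_right ⟨r', hr, rfl⟩) (Subgroup.mem_sup_left h6))
        · ext x
          rw [Subgroup.mem_comap]
          constructor
          · rintro ⟨n, hn, hnx⟩
            have hnx' : (n : Γ) = j₀ x := hnx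
            have h4 : π n ∈ X ⊓ R' := ⟨(hXm n).2 (by rw [hnx']; exact hjG x), hn⟩
            rw [hR3, Subgroup.mem_bot, hπ1, hnx', hmemQ] at h4
            exact h4
          · intro hx
            have h4 : j₀ x ∈ Q := (hmemQ x).2 hx
            refine ⟨⟨j₀ x, hQN h4⟩, ?_, rfl⟩
            have h5 : π ⟨j₀ x, hQN h4⟩ = 1 := (hπ1 _).2 h4
            rw [SetLike.mem_coe, Subgroup.mem_comap, h5]
            exact R'.one_mem
      · intro R hR
        rw [Finset.mem_filter] at hR
        obtain ⟨-, hR1, hR2, hR3⟩ := hR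
        rw [hfix R hR3, Subgroup.subgroupOf_map_subtype, inf_eq_left]
        exact hRN R hR3
      · intro R' _
        have h4 : ((R'.comap π).map N.subtype).subgroupOf N = R'.comap π :=
          Subgroup.comap_map_eq_self_of_injective (Subgroup.subtype_injective N) _
        rw [h4, Subgroup.map_comap_eq_self_of_surjective hπs]
      · intro R hR
        rw [Finset.mem_filter] at hR
        obtain ⟨-, hR1, hR2, hR3⟩ := hR
        have hle : Subgroup.normalizer (R : Set Γ) ≤ N := by
          rw [hNdef]; exact hNR R hR3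
        obtain ⟨i, hi⟩ : ∃ i : Subgroup.normalizer (R : Set Γ) →* N,
            ∀ x, (i x : Γ) = (x : Γ) := ⟨Subgroup.inclusion hle, fun x => rfl⟩
        have hii : Function.Injective i := by
          intro x y hxy
          have h3 := congrArg (fun t : N => (t : Γ)) hxy
          simp only [hi] at h3
          exact Subtype.ext h3
        have hmem : ∀ n : N, π n ∈ (R.subgroupOf N).map π ↔ (n : Γ) ∈ R := by
          intro n
          have h4 := hfix R hR3
          have h5 : n ∈ ((R.subgroupOf N).map π).comap π ↔ n ∈ R.subgroupOf N := by rw [h4]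
          rw [Subgroup.mem_comap, Subgroup.mem_subgroupOf] at h5
          exact h5
        have hnn : (Subgroup.normalizer (((R.subgroupOf N).map π : Subgroup _) : Set
            (N ⧸ Q.subgroupOf N))).comap π = Subgroup.normalizer ((R.subgroupOf N : Subgroup N) :
              Set N) := by
          rw [Subgroup.comap_normalizer_eq_of_le_range (by rw [hπr]; exact le_top), hfix R hR3]
        have hnn2 : (Subgroup.normalizer (R : Set Γ)).comap N.subtype =
            Subgroup.normalizer ((R.subgroupOf N : Subgroup N) : Set N) :=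
          Subgroup.comap_normalizer_eq_of_le_range (by
            rw [Subgroup.range_subtype]; exact hRN R hR3)
        have hiV : ∀ n : N, π n ∈ Subgroup.normalizer (((R.subgroupOf N).map π : Subgroup _) :
            Set (N ⧸ Q.subgroupOf N)) ↔ n ∈ i.range := by
          intro n
          rw [← Subgroup.mem_comap, hnn, ← hnn2, Subgroup.mem_comap]
          constructor
          · intro hn
            exact ⟨⟨n, hn⟩, Subtype.ext (hi _)⟩
          · rintro ⟨x, rfl⟩
            change (i x : Γ) ∈ _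
            rw [hi]
            exact x.2
        have h4 := card_gen π hπs i hii _ hiV
        have h5 := nw_gen p red π hπs (fun x : N => z x) i hii _ hiV
          (R.subgroupOf (Subgroup.normalizer (R : Set Γ)))
          (((R.subgroupOf N).map π).subgroupOf _) (by
            intro a h
            rw [Subgroup.mem_subgroupOf, Subgroup.mem_subgroupOf]
            change _ ↔ π (i a) ∈ _
            rw [hmem, hi]) (fun x => z x) (fun a => by rw [hi]) (fun g x => hz.conj _ _) c
        unfold wl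
        rw [h4, h5, hπk, hcardQ, mul_assoc, hzY]
    rw [finsum_eq_sum_of_fintype] at hdgn
    rw [hsum, ← hdgn, hcardN]
    ring

end

end Pool.Agent.Q18.EQ
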