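import Pool.Agent.Q18.EQ.Eqv
import Pool.Agent.Q285.EQ.Burn

/-!
# Navarro's equality and equivariant bijections
-/

set_option autoImplicit false

open scoped Classical

noncomputable section

set_option linter.unusedSectionVars false
set_option linter.unusedVariables false

namespace Pool.Agent.Q18.EQ

open Pool.Agent.Y63.NV
open Pool.Agent.Y63.NV.B77 (irr_comp')
open Pool.Agent.Y63.AWC (IsIrreducibleCharacter)

section

variable {F Γ G₀ : Type} [Field F] [Group Γ] [Finite Γ] [Group G₀] [Finite G₀] {p : ℕ}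

theorem Lnum_eq {j₀ : G₀ →* Γ} (hj₀ : Function.Injective j₀) {α : Γ →* MulAut G₀}
    (hα : ∀ γ x, j₀ (α γ x) = γ * j₀ x * γ⁻¹) (N : Subgroup Γ) (hN : N = j₀.range) (z : Γ → F)
    (c : F) : Lnum N ⊤ z c = nI F α (fun x => z (j₀ x)) c := by
  subst hN
  obtain ⟨e, he⟩ : ∃ e : G₀ ≃* j₀.range, ∀ x, (e x : Γ) = j₀ x :=
    ⟨MonoidHom.ofInjective hj₀, fun x => rfl⟩
  have hsum : ∀ (φ : j₀.range → F) (x : G₀), ∑ᶠ g : j₀.range, z g * φ (g * e x) =
      ∑ᶠ g : G₀, z (j₀ g) * φ (e (g * x)) := by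
    intro φ x
    rw [← finsum_comp_equiv e.toEquiv]
    refine finsum_congr fun g => ?_
    change z (e g : Γ) * φ (e g * e x) = _
    rw [he, map_mul]
  unfold Lnum nI
  refine Nat.card_congr
    { toFun := fun φ => ⟨fun x => φ.1 (e x), irr_comp' e φ.2.1, ?_, ?_⟩
      invFun := fun φ => ⟨fun x => φ.1 (e.symm x), irr_comp' e.symm φ.2.1, ?_, ?_⟩
      left_inv := ?_
      right_inv := ?_ }
  · intro γ x
    refine φ.2.2.1 γ (Subgroup.mem_top γ) (e x) (e (α γ x)) ?_
    rw [he, he, hα]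
  · intro x
    have h1 := φ.2.2.2 (e x)
    rw [hsum] at h1
    exact h1
  · intro γ _ x y hxy
    obtain ⟨x, rfl⟩ := e.surjective x
    obtain ⟨y, rfl⟩ := e.surjective y
    have h1 : y = α γ x := hj₀ (by rw [hα, ← he, ← he, hxy])
    change φ.1 (e.symm (e y)) = φ.1 (e.symm (e x))
    rw [e.symm_apply_apply, e.symm_apply_apply, h1]
    exact φ.2.2.1 γ x
  · intro x
    obtain ⟨x, rfl⟩ := e.surjective x
    have h1 := φ.2.2.2 x
    rw [hsum (fun y => φ.1 (e.symm y)) x]
    simp only [e.symm_apply_apply]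
    exact h1
  · intro φ
    apply Subtype.ext
    funext x
    change φ.1 (e (e.symm x)) = φ.1 x
    rw [e.apply_symm_apply]
  · intro φ
    apply Subtype.ext
    funext x
    change φ.1 (e.symm (e x)) = φ.1 x
    rw [e.symm_apply_apply]

theorem count_I {j₀ : G₀ →* Γ} (hj₀ : Function.Injective j₀) {G : Subgroup Γ}
    (hGdef : G = j₀.range) {α : Γ →* MulAut G₀}
    (hα : ∀ γ x, j₀ (α γ x) = γ * j₀ x * γ⁻¹) (z : Γ → F) (c : F) :
    (Nat.card Γ : ℤ) * nI F α (fun x => z (j₀ x)) c = Lsum G ⊤ z c := by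
  unfold Lsum
  rw [if_pos (sup_top_eq G), Lnum_eq hj₀ hα (G ⊓ ⊤) (by rw [inf_top_eq, hGdef])]
  rw [Nat.card_congr (Subgroup.topEquiv (G := Γ)).toEquiv]

end

section

variable {F Γ G₀ : Type} [Field F] [Group Γ] [Finite Γ] [Group G₀] [Finite G₀] {p : ℕ}

theorem star_gen [Fact p.Prime] [IsAlgClosed F] [CharP F p] (red : integralClosure ℤ ℂ →+* F)
    {j₀ : G₀ →* Γ} (hj₀ : Function.Injective j₀) {G : Subgroup Γ}
    [hG : G.Normal] (hGdef : G = j₀.range) (hpg : IsPGroup p (Γ ⧸ G)) {α : Γ →* MulAut G₀}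
    (hα : ∀ γ x, j₀ (α γ x) = γ * j₀ x * γ⁻¹) :
    Navarro p red G ↔ ∀ f : G₀ → F, IsClassFun f →
      (∀ (γ : Γ) (x : G₀), f (α γ x) = f x) → ∀ c : F, nI F α f c = nW p red α f c := by
  have hpos : (Nat.card Γ : ℤ) ≠ 0 := by exact_mod_cast Nat.card_pos.ne'
  constructor
  · intro h f hf hfi c
    obtain ⟨z, hz1, hz2⟩ : ∃ z : Γ → F, (∀ x, z (j₀ x) = f x) ∧ ∀ y, y ∉ G → z y = 0 := by
      refine ⟨Function.extend j₀ f 0, fun x => hj₀.extend_apply _ _ x, fun y hy => ?_⟩
      rw [Function.extend_apply']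
      · rfl
      · rintro ⟨x, hx⟩
        apply hy
        rw [hGdef]
        exact ⟨x, hx⟩
    have hInZ : InZ G z := by
      constructor
      · intro g x
        by_cases hx : x ∈ G
        · rw [hGdef] at hx
          obtain ⟨x, rfl⟩ := hx
          rw [← hα, hz1, hz1, hfi]
        · have hx' : g * x * g⁻¹ ∉ G := by
            intro h2
            apply hx
            have h3 := hG.conj_mem _ h2 g⁻¹
            have e : g⁻¹ * (g * x * g⁻¹) * g⁻¹⁻¹ = x := by group
            rwa [e] at h3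
          rw [hz2 _ hx, hz2 _ hx']
      · exact hz2
    have h1 := GB.gbase Pool.Agent.Y918.NV.winv p F red Γ G hpg h z hInZ c
    rw [← count_I hj₀ hGdef hα z c, ← count_W red hj₀ hGdef hpg hα z c hInZ] at h1
    have h2 := mul_left_cancel₀ hpos h1
    have hzj : (fun x => z (j₀ x)) = f := funext hz1
    rw [hzj] at h2
    exact_mod_cast h2
  · intro h
    refine fin' p F red Γ G hpg fun z hz c => ?_
    rw [← count_I hj₀ hGdef hα z c, ← count_W red hj₀ hGdef hpg hα z c hz]
    congr 2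
    refine h (fun x => z (j₀ x)) ?_ ?_ c
    · intro g x
      change z (j₀ (g * x * g⁻¹)) = z (j₀ x)
      rw [map_mul, map_mul, map_inv, hz.conj]
    · intro γ x
      change z (j₀ (α γ x)) = z (j₀ x)
      rw [hα, hz.conj]

end

section

variable {F Γ : Type} [Field F] [Group Γ] [Finite Γ] {p : ℕ}

/-- the action of a subgroup on the normal subgroup `G` -/
def αL (G : Subgroup Γ) [G.Normal] (L : Subgroup Γ) : L →* MulAut G :=
  (MulAut.conjNormal (H := G)).comp L.subtype

theorem αL_coe (G : Subgroup Γ) [G.Normal] (L : Subgroup Γ) (γ : L) (x : G) :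
    ((αL G L γ x : G) : Γ) = γ * x * (γ : Γ)⁻¹ := MulAut.conjNormal_apply _ _

theorem pgroup_sub {G L : Subgroup Γ} [G.Normal] (hp : IsPGroup p (Γ ⧸ G)) :
    IsPGroup p (L ⧸ G.subgroupOf L) := by
  intro y
  obtain ⟨y, rfl⟩ := QuotientGroup.mk_surjective y
  obtain ⟨k, hk⟩ := hp ((y : Γ) : Γ ⧸ G)
  refine ⟨k, ?_⟩
  rw [← QuotientGroup.mk_pow, QuotientGroup.eq_one_iff] at hk ⊢
  exact hk

theorem star [Fact p.Prime] [IsAlgClosed F] [CharP F p] (red : integralClosure ℤ ℂ →+* F)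
    (G : Subgroup Γ) [hG : G.Normal] (hp : IsPGroup p (Γ ⧸ G)) (L : Subgroup Γ) (hL : G ≤ L) :
    Navarro p red (G.subgroupOf L) ↔ ∀ f : G → F, IsClassFun f →
      (∀ (γ : L) (x : G), f (αL G L γ x) = f x) → ∀ c : F,
        nI F (αL G L) f c = nW p red (αL G L) f c := by
  obtain ⟨j, hj⟩ : ∃ j : G →* L, ∀ x, (j x : Γ) = x := ⟨Subgroup.inclusion hL, fun x => rfl⟩
  have hji : Function.Injective j := fun x y hxy => Subtype.ext (by rw [← hj, ← hj, hxy])
  have hjr : G.subgroupOf L = j.range := by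
    ext x
    rw [Subgroup.mem_subgroupOf]
    constructor
    · intro hx
      exact ⟨⟨x, hx⟩, Subtype.ext (hj _)⟩
    · rintro ⟨y, rfl⟩
      rw [hj]
      exact y.2
  have hα : ∀ (γ : L) (x : G), j (αL G L γ x) = γ * j x * γ⁻¹ := fun γ x => Subtype.ext (by
    rw [hj, αL_coe]
    change _ = (γ : Γ) * (j x : Γ) * (γ : Γ)⁻¹
    rw [hj])
  exact star_gen red hji hjr (pgroup_sub hp) hα

theorem star_top [Fact p.Prime] [IsAlgClosed F] [CharP F p] (red : integralClosure ℤ ℂ →+* F)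
    (G : Subgroup Γ) [hG : G.Normal] (hp : IsPGroup p (Γ ⧸ G)) :
    Navarro p red G ↔ ∀ f : G → F, IsClassFun f →
      (∀ (γ : Γ) (x : G), f (MulAut.conjNormal γ x) = f x) → ∀ c : F,
        nI F (MulAut.conjNormal (H := G)) f c = nW p red (MulAut.conjNormal (H := G)) f c :=
  star_gen red (j₀ := G.subtype) G.subtype_injective (by rw [Subgroup.range_subtype]) hp
    (fun γ x => MulAut.conjNormal_apply γ x)

/-- the equivariant bijections which preserve the blocks -/
def EqB (p : ℕ) [IsAlgClosed F] (red : integralClosure ℤ ℂ →+* F) (G : Subgroup Γ) [G.Normal] :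
    Prop :=
  ∃ e : IB F G ≃ WC p G, (∀ (γ : Γ) (φ : IB F G),
    e (MulAut.conjNormal (H := G) γ • φ) = MulAut.conjNormal (H := G) γ • e φ) ∧ ∀ φ, colW red (e φ) = colI φ

theorem conjNormal_mem (G : Subgroup Γ) [G.Normal] (g : G) :
    MulAut.conjNormal (g : Γ) = MulAut.conj g := by
  ext x
  rw [MulAut.conjNormal_apply, MulAut.conj_apply]
  rfl

theorem main1 [Fact p.Prime] [IsAlgClosed F] [CharP F p] (red : integralClosure ℤ ℂ →+* F)
    (G : Subgroup Γ) [hG : G.Normal] (hp : IsPGroup p (Γ ⧸ G))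
    (h : ∀ L : Subgroup Γ, G ≤ L → Navarro p red (G.subgroupOf L)) : EqB p red G := by
  have hfW : Finite (WC p G) := Quotient.finite _
  let iA : MulAction Γ (IB F G) := MulAction.compHom _ (MulAut.conjNormal (H := G))
  let iB : MulAction Γ (WC p G) := MulAction.compHom _ (MulAut.conjNormal (H := G))
  let iC : MulAction Γ (Col F G) := MulAction.compHom _ (MulAut.conjNormal (H := G))
  have hA : ∀ (γ : Γ) (φ : IB F G), γ • φ = MulAut.conjNormal (H := G) γ • φ := fun _ _ => rfl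
  have hB : ∀ (γ : Γ) (κ : WC p G), γ • κ = MulAut.conjNormal (H := G) γ • κ := fun _ _ => rfl
  have h1 := Pool.Agent.Q285.EQ.burn Γ (IB F G) (WC p G) (Col F G) colI (colW red)
    (fun γ φ => colI_smul _ φ) (fun γ κ => colW_smul red _ κ) ?_
  · exact h1
  · intro H col
    have hLW := (star red G hp (G ⊔ H) le_sup_left).1 (h _ le_sup_left)
    have h2 := fibre_eq (p := p) red (αL G (G ⊔ H)) hLW col
    have e1 : Nat.card {φ : IB F G // colI φ = col ∧ ∀ h ∈ H, h • φ = φ} =
        Nat.card {φ : IB F G // colI φ = col ∧ ∀ γ : ↥(G ⊔ H), αL G (G ⊔ H) γ • φ = φ} := by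
      refine Nat.card_congr (Equiv.subtypeEquivRight fun φ => and_congr_right fun _ => ?_)
      constructor
      · intro h3 γ
        have h4 : G ⊔ H ≤ MulAction.stabilizer Γ φ := by
          refine sup_le ?_ fun x hx => h3 x hx
          intro g hg
          rw [MulAction.mem_stabilizer_iff, hA]
          have := conjNormal_mem G ⟨g, hg⟩
          rw [this, ib_conj]
        exact h4 γ.2
      · intro h3 x hx
        exact h3 ⟨x, Subgroup.mem_sup_right hx⟩
    have e2 : Nat.card {κ : WC p G // colW red κ = col ∧ ∀ h ∈ H, h • κ = κ} =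
        Nat.card {κ : WC p G // colW red κ = col ∧ ∀ γ : ↥(G ⊔ H), αL G (G ⊔ H) γ • κ = κ} := by
      refine Nat.card_congr (Equiv.subtypeEquivRight fun κ => and_congr_right fun _ => ?_)
      constructor
      · intro h3 γ
        have h4 : G ⊔ H ≤ MulAction.stabilizer Γ κ := by
          refine sup_le ?_ fun x hx => h3 x hx
          intro g hg
          rw [MulAction.mem_stabilizer_iff, hB]
          have := conjNormal_mem G ⟨g, hg⟩
          rw [this, wc_conj]
        exact h4 γ.2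
      · intro h3 x hx
        exact h3 ⟨x, Subgroup.mem_sup_right hx⟩
    rw [e1, e2]
    exact h2

theorem main2 [Fact p.Prime] [IsAlgClosed F] [CharP F p] (red : integralClosure ℤ ℂ →+* F)
    (G : Subgroup Γ) [hG : G.Normal] (hp : IsPGroup p (Γ ⧸ G)) (h : EqB p red G)
    (L : Subgroup Γ) (hL : G ≤ L) : Navarro p red (G.subgroupOf L) := by
  obtain ⟨e, he1, he2⟩ := h
  rw [star red G hp L hL]
  intro f hf hfi c
  rw [nI_eq (αL G L) ⟨f, hf⟩ c, nW_eq (p := p) red (αL G L) ⟨f, hf⟩ c]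
  refine Nat.card_congr (e.subtypeEquiv fun φ => ?_)
  rw [he2]
  refine and_congr_right fun _ => forall_congr' fun γ => ?_
  have h1 : αL G L γ • e φ = e (αL G L γ • φ) := (he1 γ φ).symm
  rw [h1, e.injective.eq_iff]

theorem main3 [Fact p.Prime] [IsAlgClosed F] [CharP F p] (red : integralClosure ℤ ℂ →+* F)
    (G : Subgroup Γ) [hG : G.Normal] (hp : IsPGroup p (Γ ⧸ G)) (h : EqB p red G) :
    Navarro p red G := by
  obtain ⟨e, he1, he2⟩ := h
  rw [star_top red G hp]
  intro f hf hfi c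
  rw [nI_eq (MulAut.conjNormal (H := G)) ⟨f, hf⟩ c,
    nW_eq (p := p) red (MulAut.conjNormal (H := G)) ⟨f, hf⟩ c]
  refine Nat.card_congr (e.subtypeEquiv fun φ => ?_)
  rw [he2]
  refine and_congr_right fun _ => forall_congr' fun γ => ?_
  rw [← he1 γ φ, e.injective.eq_iff]

end

/-- equivariant bijections as maps on the weights -/
theorem eqB_iff {F Γ : Type} [Field F] [Group Γ] [Finite Γ] {p : ℕ} [IsAlgClosed F]
    (red : integralClosure ℤ ℂ →+* F) (G : Subgroup Γ) [G.Normal] :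
    EqB p red G ↔ ∃ Φ : {w : Subgroup G × (G → ℂ) // IsWeight p w} → {φ : G → F // IsIrrTrace φ},
      Function.Surjective Φ ∧
      (∀ w w', Φ w = Φ w' ↔ ∃ g : G, w'.1 = mv (MulAut.conj g) w.1) ∧
      (∀ (γ : Γ) (w w' : {w : Subgroup G × (G → ℂ) // IsWeight p w}),
        w'.1 = mv (MulAut.conjNormal γ) w.1 →
        ∀ x : G, (Φ w').1 (MulAut.conjNormal γ x) = (Φ w).1 x) ∧
      ∀ w (f : G → F), IsClassFun f → ∀ x : G,
        ∑ᶠ g : G, f g * (Φ w).1 (g * x) = lab red w.1 f * (Φ w).1 x := by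
  constructor
  · rintro ⟨e, he1, he2⟩
    refine ⟨fun w => e.symm (mkW w), ?_, ?_, ?_, ?_⟩
    · intro φ
      obtain ⟨w, hw⟩ := mkW_surj (e φ)
      refine ⟨w, ?_⟩
      change e.symm (mkW w) = φ
      rw [hw]
      exact e.symm_apply_apply φ
    · intro w w'
      change e.symm (mkW w) = e.symm (mkW w') ↔ _
      rw [e.symm.injective.eq_iff, mkW_eq]
      refine exists_congr fun g => ?_
      rw [Subtype.ext_iff, smul_val]
      exact eq_comm
    · intro γ w w' hw x
      change (e.symm (mkW w')).1 _ = (e.symm (mkW w)).1 x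
      have h1 : w' = MulAut.conjNormal (H := G) γ • w := Subtype.ext hw
      have h2 : e.symm (mkW w') = MulAut.conjNormal (H := G) γ • e.symm (mkW w) := by
        apply e.injective
        rw [he1, e.apply_symm_apply, e.apply_symm_apply, h1, wc_smul]
      rw [h2, ib_smul]
      have h3 : (MulAut.conjNormal (H := G) γ)⁻¹ (MulAut.conjNormal (H := G) γ x) = x :=
        (MulAut.conjNormal (H := G) γ).symm_apply_apply x
      rw [h3]
    · intro w f hf
      have h1 := he2 (e.symm (mkW w))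
      rw [e.apply_symm_apply] at h1
      have h2 := (colI_iff (e.symm (mkW w)) ⟨f, hf⟩ (lab red w.1 f)).2 (by
        rw [← h1, colW_mk])
      exact h2
  · rintro ⟨Φ, h1, h2, h3, h4⟩
    have hwd : ∀ w w' : WT p G, (wS p G).r w w' → (Φ w : IB F G) = Φ w' := by
      rintro w w' ⟨g, hg⟩
      exact (h2 w w').2 ⟨g, by rw [← hg, smul_val]⟩
    let Ψ : WC p G → IB F G := Quotient.lift (fun w => (Φ w : IB F G)) hwd
    have hΨ : ∀ w : WT p G, Ψ (mkW w) = Φ w := fun w => rfl
    have hbij : Function.Bijective Ψ := by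
      constructor
      · intro κ κ' h
        obtain ⟨w, rfl⟩ := mkW_surj κ
        obtain ⟨w', rfl⟩ := mkW_surj κ'
        rw [hΨ, hΨ] at h
        obtain ⟨g, hg⟩ := (h2 w w').1 h
        exact mkW_eq.2 ⟨g, Subtype.ext (by rw [smul_val, hg])⟩
      · intro φ
        obtain ⟨w, hw⟩ := h1 φ
        exact ⟨mkW w, hw⟩
    let e := (Equiv.ofBijective Ψ hbij).symm
    have he : ∀ κ, e (Ψ κ) = κ := fun κ => (Equiv.ofBijective Ψ hbij).symm_apply_apply κ
    refine ⟨e, ?_, ?_⟩
    · intro γ φ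
      obtain ⟨κ, rfl⟩ := hbij.2 φ
      obtain ⟨w, rfl⟩ := mkW_surj κ
      have h5 : MulAut.conjNormal (H := G) γ • Ψ (mkW w) =
          Ψ (MulAut.conjNormal (H := G) γ • mkW w) := by
        rw [wc_smul]
        apply Subtype.ext
        funext x
        rw [ib_smul]
        change (Φ w).1 _ = (Φ (MulAut.conjNormal (H := G) γ • w)).1 x
        have h6 := h3 γ w (MulAut.conjNormal (H := G) γ • w) rfl
          ((MulAut.conjNormal (H := G) γ)⁻¹ x)
        have h7 : (MulAut.conjNormal (H := G) γ) ((MulAut.conjNormal (H := G) γ)⁻¹ x) = x :=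
          (MulAut.conjNormal (H := G) γ).apply_symm_apply x
        rw [h7] at h6
        exact h6.symm
      rw [h5, he, he]
    · intro φ
      obtain ⟨κ, rfl⟩ := hbij.2 φ
      obtain ⟨w, rfl⟩ := mkW_surj κ
      rw [he]
      funext f
      rw [colW_mk]
      exact ((colI_iff (Ψ (mkW w)) f (lab red w.1 f.1)).1 (h4 w f.1 f.2)).symm

end Pool.Agent.Q18.EQ
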