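import Pool.Agent.Q18.EQ.Cnt2
import Pool.Agent.Q18.K.EqB
import Pool.Agent.Y63.NV.Nfin2

/-!
# Separation of the blocks
-/

set_option autoImplicit false

open scoped Classical

noncomputable section

set_option linter.unusedSectionVars false
set_option linter.unusedVariables false

namespace Pool.Agent.Q18.EQ

open Pool.Agent.Y63.NV
open Pool.Agent.Y63.NV.B77 (irr_comp')
open Pool.Agent.Y63.AWC (IsIrreducibleCharacter)

section act

variable {F G₀ : Type} [Field F] [Group G₀] {p : ℕ}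

/-- the irreducible characters in characteristic `p` -/
def IB (F G₀ : Type) [Field F] [Group G₀] : Type := {φ : G₀ → F // IsIrrTrace φ}

instance : MulAction (MulAut G₀) (IB F G₀) where
  smul a φ := ⟨fun x => φ.1 (a⁻¹ x), irr_comp' a⁻¹ φ.2⟩
  one_smul φ := Subtype.ext (funext fun x => by
    change φ.1 ((1 : MulAut G₀)⁻¹ x) = φ.1 x
    rw [inv_one]; rfl)
  mul_smul a b φ := Subtype.ext (funext fun x => by
    change φ.1 ((a * b)⁻¹ x) = φ.1 (b⁻¹ (a⁻¹ x))
    rw [mul_inv_rev]; rfl)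

theorem ib_smul (a : MulAut G₀) (φ : IB F G₀) (x : G₀) : (a • φ).1 x = φ.1 (a⁻¹ x) := rfl

/-- the colours -/
def Col (F G₀ : Type) [Field F] [Group G₀] : Type := {f : G₀ → F // IsClassFun f} → F

theorem cf_aut (a : MulAut G₀) {f : G₀ → F} (hf : IsClassFun f) :
    IsClassFun (fun x => f (a x)) := fun g x => by
  change f (a (g * x * g⁻¹)) = f (a x)
  rw [map_mul, map_mul, map_inv, hf]

/-- class functions and automorphisms -/
def cfa (a : MulAut G₀) (f : {f : G₀ → F // IsClassFun f}) : {f : G₀ → F // IsClassFun f} :=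
  ⟨fun x => f.1 (a x), cf_aut a f.2⟩

instance : MulAction (MulAut G₀) (Col F G₀) where
  smul a c := fun f => c (cfa a f)
  one_smul c := rfl
  mul_smul a b c := rfl

theorem col_smul (a : MulAut G₀) (c : Col F G₀) (f : {f : G₀ → F // IsClassFun f}) :
    (a • c) f = c (cfa a f) := rfl

/-- the classes of weights -/
def WC (p : ℕ) (G₀ : Type) [Group G₀] : Type := Quotient (wS p G₀)

/-- the class of a weight -/
def mkW (w : WT p G₀) : WC p G₀ := Quotient.mk (wS p G₀) w

theorem mkW_surj (κ : WC p G₀) : ∃ w : WT p G₀, mkW w = κ := Quotient.exists_rep κ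

theorem mkW_eq {w w' : WT p G₀} : mkW w = mkW w' ↔ ∃ g : G₀, MulAut.conj g • w = w' :=
  ⟨fun h => Quotient.exact h, fun h => Quotient.sound h⟩

instance : MulAction (MulAut G₀) (WC p G₀) where
  smul a := Quotient.map (fun w => a • w) (by
    rintro w w' ⟨g, rfl⟩
    exact ⟨a g, by rw [← mul_smul, ← conj_aut, mul_smul]⟩)
  one_smul κ := by
    induction κ using Quotient.inductionOn with
    | _ w => exact congrArg (Quotient.mk _) (one_smul _ w)
  mul_smul a b κ := by
    induction κ using Quotient.inductionOn with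
    | _ w => exact congrArg (Quotient.mk _) (mul_smul a b w)

theorem wc_smul (a : MulAut G₀) (w : WT p G₀) : a • mkW w = mkW (a • w) := rfl

/-- inner automorphisms act trivially -/
theorem wc_conj (g : G₀) (κ : WC p G₀) : MulAut.conj g • κ = κ := by
  obtain ⟨w, rfl⟩ := mkW_surj κ
  rw [wc_smul]
  exact (mkW_eq.2 ⟨g, rfl⟩).symm

variable [Finite G₀]

/-- the colour of a class of weights -/
def colW (red : integralClosure ℤ ℂ →+* F) : WC p G₀ → Col F G₀ :=
  Quotient.lift (fun w f => lab red w.1 f.1) (by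
    rintro w w' ⟨g, rfl⟩
    funext f
    rw [smul_val, lab_mv red w.2 _ _ f.2]
    congr 1
    funext x
    rw [MulAut.conj_apply, f.2])

theorem colW_mk (red : integralClosure ℤ ℂ →+* F) (w : WT p G₀)
    (f : {f : G₀ → F // IsClassFun f}) : colW red (mkW w) f = lab red w.1 f.1 := rfl

theorem colW_smul (red : integralClosure ℤ ℂ →+* F) (a : MulAut G₀) (κ : WC p G₀) :
    colW red (a • κ) = a • colW red κ := by
  obtain ⟨w, rfl⟩ := mkW_surj κ
  funext f
  rw [wc_smul, colW_mk, smul_val, lab_mv red w.2 _ _ f.2]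
  rfl

theorem colW_block [Fact p.Prime] [IsAlgClosed F] [CharP F p] (red : integralClosure ℤ ℂ →+* F)
    (κ : WC p G₀) : ∃ B : (G₀ → F) → F, IsBlock B ∧ ∀ f, colW red κ f = B f.1 := by
  obtain ⟨w, rfl⟩ := mkW_surj κ
  exact ⟨_, wblk' p F red G₀ w.1.1 (fun x => w.1.2 x) w.2.isp w.2.wt, fun f => rfl⟩

variable [IsAlgClosed F]

/-- the colour of an irreducible character -/
def colI (φ : IB F G₀) : Col F G₀ := fun f => (schur' F G₀ φ.1 φ.2).2.choose f.1

theorem colI_block (φ : IB F G₀) :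
    ∃ B : (G₀ → F) → F, IsBlock B ∧ ∀ f, colI φ f = B f.1 :=
  ⟨_, (schur' F G₀ φ.1 φ.2).2.choose_spec.1, fun f => rfl⟩

theorem colI_spec (φ : IB F G₀) (f : {f : G₀ → F // IsClassFun f}) (x : G₀) :
    ∑ᶠ g : G₀, f.1 g * φ.1 (g * x) = colI φ f * φ.1 x :=
  (schur' F G₀ φ.1 φ.2).2.choose_spec.2 f.1 f.2 x

theorem colI_iff (φ : IB F G₀) (f : {f : G₀ → F // IsClassFun f}) (c : F) :
    (∀ x, ∑ᶠ g : G₀, f.1 g * φ.1 (g * x) = c * φ.1 x) ↔ colI φ f = c := by
  constructor
  · intro h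
    obtain ⟨x, hx⟩ := (schur' F G₀ φ.1 φ.2).1
    have h1 := h x
    rw [colI_spec] at h1
    exact mul_right_cancel₀ hx h1
  · rintro rfl x
    exact colI_spec φ f x

theorem colI_smul (a : MulAut G₀) (φ : IB F G₀) : colI (a • φ) = a • colI φ := by
  funext f
  rw [col_smul, ← colI_iff]
  intro x
  have h1 := colI_spec φ (cfa a f) (a⁻¹ x)
  rw [ib_smul, ← h1, ← finsum_comp_equiv a.toEquiv]
  refine finsum_congr fun g => ?_
  rw [ib_smul]
  change f.1 (a g) * φ.1 (a⁻¹ (a g * x)) = f.1 (a g) * φ.1 (g * a⁻¹ x)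
  rw [map_mul]
  have e : a⁻¹ (a g) = g := a.symm_apply_apply g
  rw [e]

/-- inner automorphisms act trivially -/
theorem ib_conj (g : G₀) (φ : IB F G₀) : MulAut.conj g • φ = φ := by
  apply Subtype.ext
  funext x
  rw [ib_smul]
  obtain ⟨V, i1, i2, i3, ρ, h1, h2⟩ := φ.2
  rw [h2]
  rw [MulAut.conj_inv_apply]
  have h3 := ρ.char_conj x g⁻¹
  rw [inv_inv] at h3
  exact h3

end act

end Pool.Agent.Q18.EQ
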